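import Pool.Agent.FTE.LDefs

/-!
# Lower bound for even diameters: walks to the hubs
-/

set_option autoImplicit false

namespace Pool.Agent.FTE

open Pool.Agent.Helper68

variable {V : Type} [Fintype V] [DecidableEq V] {G : SimpleGraph V} [DecidableRel G.Adj]
  {H : Finset V}

theorem far_pair {d k : ℕ} (h : FaultTolerant G d k) (hk : 1 ≤ k) (hn : k + 1 ≤ Fintype.card V)
    {S : Finset V} (hS : S.card ≤ k - 1) {u v : V} (hu : u ∉ S) (hv : v ∉ S) (huH : u ∉ H)
    (hvH : v ∉ H) (hne : v ≠ u) (hfar : v ∉ Ball G H d u) :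
    ∃ t t', t + t' ≤ d ∧ HC G H S t u ∧ HC G H S t' v := by
  obtain ⟨ℓ, hℓ, p, hp⟩ := h.path hk hn hS hu hv
  rcases path_cases hp hℓ huH hvH hne with h1 | ⟨t, t', ht, ht', htt, h1, h2, -⟩
  · exact absurd h1 hfar
  · refine ⟨t, t', htt.trans hℓ, ⟨p t, h1, t, le_refl _, p, hp.1, rfl, ?_, ?_⟩,
      ⟨p (ℓ - t'), h2, t', le_refl _, fun i => p (ℓ - i), ?_, rfl, ?_, ?_⟩⟩
    · intro i hi
      exact hp.2.2.1 i (by omega)
    · intro i hi
      exact hp.2.2.2 i (by omega)
    · exact hp.reverse.1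
    · intro i hi
      exact hp.reverse.2.2.1 i (by omega)
    · intro i hi
      exact hp.reverse.2.2.2 i (by omega)

theorem Bd_sub {a b : ℕ} (h : a ≤ b) : Bd G H a ⊆ Bd G H b := by
  induction b with
  | zero => rw [Nat.le_zero.1 h]
  | succ b ih =>
    rcases Nat.lt_or_ge a (b + 1) with h1 | h1
    · refine (ih (by omega)).trans ?_
      intro x hx
      simp only [Bd, Finset.mem_filter, Finset.mem_univ, true_and]
      exact Or.inl hx
    · rw [le_antisymm h h1]

theorem mem_Bd_adj {a : ℕ} {u w : V} (hw : w ∈ Bd G H a) (h : G.Adj u w) : u ∈ Bd G H (a + 1) := by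
  simp only [Bd, Finset.mem_filter, Finset.mem_univ, true_and]
  exact Or.inr ⟨w, hw, h⟩

theorem HC.mem_Bd {S : Finset V} {t : ℕ} {u : V} (h : HC G H S t u) : u ∈ Bd G H t := by
  obtain ⟨x, hx, ℓ, hℓ, p, h0, h1, h2, h3⟩ := h
  have key : ∀ i ≤ ℓ, p (ℓ - i) ∈ Bd G H i := by
    intro i
    induction i with
    | zero =>
      intro _
      rw [Nat.sub_zero, h1]
      exact hx
    | succ i ih =>
      intro hi
      refine mem_Bd_adj (ih (by omega)) ?_
      have h4 := h2 (ℓ - (i + 1)) (by omega)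
      rwa [show ℓ - (i + 1) + 1 = ℓ - i by omega] at h4
  have h4 := key ℓ (le_refl _)
  rw [Nat.sub_self, h0] at h4
  exact Bd_sub hℓ h4

theorem HC.step {S : Finset V} {t : ℕ} {u : V} (h : HC G H S t u) (hu : u ∉ H) :
    ∃ w t', t' + 1 ≤ t ∧ G.Adj u w ∧ w ∉ S ∧ HC G H (insert u S) t' w := by
  classical
  obtain ⟨x, hx, ℓ, hℓ, p, h0, h1, h2, h3⟩ := h
  have hex : ∃ j, j ≤ ℓ ∧ p (ℓ - j) = u := ⟨ℓ, le_refl _, by rw [Nat.sub_self, h0]⟩
  have hj := Nat.find_spec hex
  have hmin : ∀ i < Nat.find hex, p (ℓ - i) ≠ u := by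
    intro i hi hpi
    exact Nat.find_min hex hi ⟨by omega, hpi⟩
  set j := Nat.find hex with hjdef
  have hj0 : j ≠ 0 := by
    intro h4
    have h5 := hj.2
    rw [h4, Nat.sub_zero, h1] at h5
    rw [h5] at hx
    exact hu hx
  refine ⟨p (ℓ - j + 1), j - 1, by omega, ?_, h3 _ (by omega), x, hx, j - 1, le_refl _,
    fun i => p (ℓ - j + 1 + i), ?_, ?_, ?_, ?_⟩
  · have h4 := h2 (ℓ - j) (by omega)
    rwa [hj.2] at h4
  · simp
  · show p (ℓ - j + 1 + (j - 1)) = x
    rw [show ℓ - j + 1 + (j - 1) = ℓ by omega, h1]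
  · intro i hi
    exact h2 (ℓ - j + 1 + i) (by omega)
  · intro i hi
    rw [Finset.mem_insert, not_or]
    refine ⟨?_, h3 _ (by omega)⟩
    have h4 := hmin (j - 1 - i) (by omega)
    rwa [show ℓ - (j - 1 - i) = ℓ - j + 1 + i by omega] at h4

theorem card_T {k r D : ℕ} (h : FaultTolerant G (2 * r) k) (hk : 1 ≤ k) (hr : 2 ≤ r)
    (hn : k + 1 ≤ Fintype.card V) (hdeg : ∀ u, k ≤ G.degree u) (hD1 : 1 ≤ D)
    (hD : ∀ x ∉ H, G.degree x ≤ D) :
    ((Bd G H (r - 1))ᶜ).card ≤
      2 * ∑ u ∈ (Bd G H (r - 2))ᶜ, exc G H k u + (2 * r * D ^ (2 * r) + k + 1) := by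
  classical
  have hH1 : H ⊆ Bd G H (r - 1) := Bd_sub (a := 0) (Nat.zero_le _)
  have hnb : ∀ w ∉ Bd G H (r - 1), ∀ y, G.Adj w y → y ∉ H := by
    intro w hw y hwy hy
    exact hw (Bd_sub (show 1 ≤ r - 1 by omega) (mem_Bd_adj (a := 0) hy hwy))
  have hnb2 : ∀ w ∉ Bd G H (r - 1), ∀ y, G.Adj w y → y ∉ Bd G H (r - 2) := by
    intro w hw y hwy hy
    have h3 := mem_Bd_adj hy hwy
    rw [show r - 2 + 1 = r - 1 by omega] at h3
    exact hw h3
  by_cases hcase : ∃ w, w ∉ Bd G H (r - 1) ∧ ∃ y, G.Adj w y ∧ G.degree y = k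
  · obtain ⟨w, hw, y, hwy, hyk⟩ := hcase
    have hyH := hnb w hw y hwy
    have hsub : (Bd G H (r - 1))ᶜ ⊆ Ball G H (2 * r) y ∪ insert y (G.neighborFinset y) := by
      intro w' hw'
      rw [Finset.mem_compl] at hw'
      by_contra hcon
      rw [Finset.mem_union, Finset.mem_insert, not_or, not_or] at hcon
      obtain ⟨hc1, hc2, hc3⟩ := hcon
      obtain ⟨t, t', htt, h1, h2⟩ := far_pair (H := H) h hk hn
        (S := (G.neighborFinset y).erase w) (u := y) (v := w')
        (by
          rw [Finset.card_erase_of_mem (by simpa using hwy.symm),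
            SimpleGraph.card_neighborFinset_eq_degree, hyk])
        (by simp) (fun hx => hc3 (Finset.mem_of_mem_erase hx)) hyH
        (fun hx => hw' (hH1 hx)) hc2 hc1
      obtain ⟨w₁, t₁, ht₁, h3, h4, h5⟩ := h1.step hyH
      have h6 : w₁ = w := by
        by_contra hne
        exact h4 (Finset.mem_erase.2 ⟨hne, by simpa using h3⟩)
      subst h6
      have h7 : r - 1 < t₁ := by
        by_contra hcon
        exact hw (Bd_sub (by omega) h5.mem_Bd)
      have h8 : r - 1 < t' := by
        by_contra hcon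
        exact hw' (Bd_sub (by omega) h2.mem_Bd)
      omega
    have h1 := Finset.card_le_card hsub
    have h2 := Finset.card_union_le (Ball G H (2 * r) y) (insert y (G.neighborFinset y))
    have h3 := card_Ball_le (G := G) hD1 hD (2 * r) y
    have h4 := Finset.card_insert_le y (G.neighborFinset y)
    rw [SimpleGraph.card_neighborFinset_eq_degree, hyk] at h4
    omega
  · push Not at hcase
    have hsum : ∑ w ∈ (Bd G H (r - 1))ᶜ, G.degree w ≤ (k + 1) * ∑ u ∈ (Bd G H (r - 2))ᶜ, exc G H k u := by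
      calc ∑ w ∈ (Bd G H (r - 1))ᶜ, G.degree w
          = ∑ w ∈ (Bd G H (r - 1))ᶜ, ∑ y : V, (if G.Adj w y then 1 else 0) := by
            refine Finset.sum_congr rfl fun w _ => ?_
            rw [← SimpleGraph.card_neighborFinset_eq_degree, Finset.sum_boole]
            simp only [Nat.cast_id]
            congr 1
            ext x
            simp
        _ = ∑ y : V, ∑ w ∈ (Bd G H (r - 1))ᶜ, (if G.Adj w y then 1 else 0) :=
            Finset.sum_comm
        _ ≤ ∑ y : V, (if y ∈ (Bd G H (r - 2))ᶜ then (k + 1) * exc G H k y else 0) := by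
            refine Finset.sum_le_sum fun y _ => ?_
            by_cases hyex : ∃ w ∈ (Bd G H (r - 1))ᶜ, G.Adj w y
            · obtain ⟨w, hw, hwy⟩ := hyex
              rw [Finset.mem_compl] at hw
              have hyH := hnb2 w hw y hwy
              have hyk := hcase w hw y hwy
              rw [if_pos (Finset.mem_compl.2 hyH)]
              have h1 : ∑ w ∈ (Bd G H (r - 1))ᶜ, (if G.Adj w y then 1 else 0) ≤ G.degree y := by
                rw [← SimpleGraph.card_neighborFinset_eq_degree, Finset.sum_boole]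
                simp only [Nat.cast_id]
                refine Finset.card_le_card ?_
                intro x hx
                rw [Finset.mem_filter] at hx
                simpa using hx.2.symm
              have h2 : k + 1 ≤ G.degree y := by
                have := hdeg y
                omega
              obtain ⟨m, hm⟩ := Nat.exists_eq_add_of_le h2
              have h3 : m + 1 ≤ exc G H k y := by
                unfold exc
                omega
              calc _ ≤ G.degree y := h1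
                _ = k + 1 + m := hm
                _ ≤ (k + 1) * (m + 1) := by nlinarith [Nat.zero_le (k * m)]
                _ ≤ _ := Nat.mul_le_mul_left _ h3
            · push Not at hyex
              rw [Finset.sum_eq_zero]
              · exact Nat.zero_le _
              · intro w hw
                rw [if_neg (hyex w hw)]
        _ = (k + 1) * ∑ u ∈ (Bd G H (r - 2))ᶜ, exc G H k u := by
            rw [Finset.mul_sum, ← Finset.sum_filter]
            congr 1
            ext x
            simp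
    have h1 : k * ((Bd G H (r - 1))ᶜ).card ≤ ∑ w ∈ (Bd G H (r - 1))ᶜ, G.degree w := by
      rw [mul_comm, ← smul_eq_mul]
      exact Finset.card_nsmul_le_sum _ _ _ (fun w _ => hdeg w)
    have h2 : k * ((Bd G H (r - 1))ᶜ).card ≤ k * (2 * ∑ u ∈ (Bd G H (r - 2))ᶜ, exc G H k u) := by
      calc _ ≤ (k + 1) * ∑ u ∈ (Bd G H (r - 2))ᶜ, exc G H k u := h1.trans hsum
        _ ≤ (k + k) * ∑ u ∈ (Bd G H (r - 2))ᶜ, exc G H k u := Nat.mul_le_mul_right _ (by omega)
        _ = _ := by ring
    have h3 := Nat.le_of_mul_le_mul_left h2 hk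
    omega

theorem spec_cases {k r D : ℕ} (h : FaultTolerant G (2 * r) k) (hk : 2 ≤ k) (hr : 3 ≤ r)
    (hn : k + 1 ≤ Fintype.card V) (hD1 : 1 ≤ D) (hD : ∀ x ∉ H, G.degree x ≤ D) :
    (Spec G H r).card ≤ 2 * r * D ^ (2 * r) + k + 1 ∨
      ∀ p ∈ lev G H (r - 3), G.degree p = k → (G.neighborFinset p ∩ Spec G H r).card ≤ 1 := by
  classical
  by_cases hcase : ∀ p ∈ lev G H (r - 3), G.degree p = k →
      (G.neighborFinset p ∩ Spec G H r).card ≤ 1
  · exact Or.inr hcase
  left
  push Not at hcase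
  obtain ⟨p, hp, hpk, hc⟩ := hcase
  obtain ⟨y₁, hy₁, y₂, hy₂, hne⟩ := Finset.one_lt_card.1 hc
  rw [Finset.mem_inter, SimpleGraph.mem_neighborFinset] at hy₁ hy₂
  have e1 : r - 3 + 1 = r - 2 := by omega
  have e2 : r - 2 + 1 = r - 1 := by omega
  unfold lev at hp
  rw [Finset.mem_sdiff, e1] at hp
  have hpH : p ∉ H := fun hx => hp.2 (Bd_sub (a := 0) (Nat.zero_le _) hx)
  -- the neighbour of smaller level
  have hspec : ∀ {y : V}, y ∈ Spec G H r → y ∉ Bd G H (r - 2) ∧
      ∃ q, q ∈ Bd G H (r - 2) ∧ G.Adj y q ∧ ∀ z ∈ Bd G H (r - 2), G.Adj y z → z = q := by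
    intro y hy
    unfold Spec lev at hy
    rw [Finset.mem_filter, Finset.mem_sdiff] at hy
    obtain ⟨q, hq⟩ := Finset.card_eq_one.1 hy.2
    have hq1 : q ∈ G.neighborFinset y ∩ Bd G H (r - 2) := by rw [hq]; simp
    rw [Finset.mem_inter, SimpleGraph.mem_neighborFinset] at hq1
    refine ⟨hy.1.2, q, hq1.2, hq1.1, ?_⟩
    intro z hz hyz
    have hz1 : z ∈ G.neighborFinset y ∩ Bd G H (r - 2) := by
      rw [Finset.mem_inter, SimpleGraph.mem_neighborFinset]
      exact ⟨hyz, hz⟩
    rw [hq, Finset.mem_singleton] at hz1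
    exact hz1
  have hHB : H ⊆ Bd G H (r - 2) := Bd_sub (a := 0) (Nat.zero_le _)
  have hsub : Spec G H r ⊆ Ball G H (2 * r) p ∪ insert p (G.neighborFinset p) := by
    intro y hy
    by_contra hcon
    rw [Finset.mem_union, Finset.mem_insert, not_or, not_or] at hcon
    obtain ⟨hc1, hc2, hc3⟩ := hcon
    obtain ⟨hyB, p', hp'B, hyp', hp'u⟩ := hspec hy
    have hpp' : p ≠ p' := by
      rintro rfl
      exact hc3 (by simpa using hyp'.symm)
    have hcard : (insert p' (((G.neighborFinset p).erase y₁).erase y₂)).card ≤ k - 1 := by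
      refine (Finset.card_insert_le _ _).trans ?_
      rw [Finset.card_erase_of_mem (Finset.mem_erase.2 ⟨Ne.symm hne, by simpa using hy₂.1⟩),
        Finset.card_erase_of_mem (by simpa using hy₁.1),
        SimpleGraph.card_neighborFinset_eq_degree, hpk]
      omega
    obtain ⟨t, t', htt, h1, h2⟩ := far_pair (H := H) h (by omega) hn hcard (u := p) (v := y)
      (by
        rw [Finset.mem_insert, not_or]
        exact ⟨hpp', by simp⟩)
      (by
        rw [Finset.mem_insert, not_or]
        exact ⟨hyp'.ne, fun hx => hc3 (Finset.mem_of_mem_erase (Finset.mem_of_mem_erase hx))⟩)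
      hpH (fun hx => hyB (hHB hx)) hc2 hc1
    have hy2 : r ≤ t' := by
      obtain ⟨z, t₂, ht₂, h3, h4, h5⟩ := h2.step (fun hx => hyB (hHB hx))
      by_contra hcon
      have h6 := hp'u z (Bd_sub (by omega) h5.mem_Bd) h3
      exact h4 (by rw [h6]; exact Finset.mem_insert_self _ _)
    have hp2 : r + 1 ≤ t := by
      obtain ⟨w, t₁, ht₁, h3, h4, h5⟩ := h1.step hpH
      have hw : w = y₁ ∨ w = y₂ := by
        by_contra hcon
        rw [not_or] at hcon
        refine h4 (Finset.mem_insert_of_mem (Finset.mem_erase.2 ⟨hcon.2,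
          Finset.mem_erase.2 ⟨hcon.1, by simpa using h3⟩⟩))
      have hwS : w ∈ Spec G H r := by
        rcases hw with rfl | rfl
        · exact hy₁.2
        · exact hy₂.2
      obtain ⟨hwB, q, hqB, hwq, hqu⟩ := hspec hwS
      have hpq : p = q := hqu p hp.1 h3.symm
      obtain ⟨z, t₂, ht₂, h6, h7, h8⟩ := h5.step (fun hx => hwB (hHB hx))
      by_contra hcon
      have h9 := hqu z (Bd_sub (by omega) h8.mem_Bd) h6
      exact h7 (by rw [h9, ← hpq]; exact Finset.mem_insert_self _ _)
    omega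
  have h1 := Finset.card_le_card hsub
  have h2 := Finset.card_union_le (Ball G H (2 * r) p) (insert p (G.neighborFinset p))
  have h3 := card_Ball_le (G := G) hD1 hD (2 * r) p
  have h4 := Finset.card_insert_le p (G.neighborFinset p)
  rw [SimpleGraph.card_neighborFinset_eq_degree, hpk] at h4
  omega

end Pool.Agent.FTE
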