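import Pool.Agent.FTE.LDefs

/-!
# Lower bound for even diameters: counting

`exc_sum`: `Σ_{u ∈ Hᶜ} (deg u + |N(u) ∩ H|) ≤ 2 e`.
Levels: `u ∈ lev 0`: `u ∉ H`, `|N(u) ∩ H| ≥ 1`. `u ∈ lev a`, `a ≥ 1`: at least one neighbour in `Bd a`.
A vertex of `lev (a + 1)` has a neighbour in `lev a`.
-/

set_option autoImplicit false

namespace Pool.Agent.FTE

open Pool.Agent.Helper68

variable {V : Type} [Fintype V] [DecidableEq V] {G : SimpleGraph V} [DecidableRel G.Adj]
  {H : Finset V}

theorem exc_sum {k : ℕ} (hdeg : ∀ u, k ≤ G.degree u) :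
    ∑ u ∈ Hᶜ, exc G H k u + k * Fintype.card V ≤ 2 * G.edgeFinset.card + k * H.card := by
  have h1 := two_mul_edges_ge (G := G) H
  have h2 : ∀ u ∈ Hᶜ, exc G H k u + k =
      2 * (G.neighborFinset u ∩ H).card + (G.neighborFinset u \ H).card := by
    intro u _
    have h3 : (G.neighborFinset u ∩ H).card + (G.neighborFinset u \ H).card = G.degree u := by
      rw [← SimpleGraph.card_neighborFinset_eq_degree]
      exact Finset.card_inter_add_card_sdiff _ _
    have h4 := hdeg u
    unfold exc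
    omega
  rw [← Finset.sum_congr rfl h2, Finset.sum_add_distrib, Finset.sum_const, smul_eq_mul] at h1
  have h5 : Hᶜ.card + H.card = Fintype.card V := Finset.card_compl_add_card _
  have h6 : Hᶜ.card * k + k * H.card = k * Fintype.card V := by rw [← h5]; ring
  omega

theorem Bd_mono (a : ℕ) : Bd G H a ⊆ Bd G H (a + 1) := by
  intro u hu
  simp only [Bd, Finset.mem_filter, Finset.mem_univ, true_and]
  exact Or.inl hu

theorem H_sub_Bd (a : ℕ) : H ⊆ Bd G H a := by
  induction a with
  | zero => exact Finset.Subset.refl _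
  | succ a ih => exact ih.trans (Bd_mono a)

theorem mem_Bd_succ_of_adj {a : ℕ} {u w : V} (hw : w ∈ Bd G H a) (h : G.Adj u w) :
    u ∈ Bd G H (a + 1) := by
  simp only [Bd, Finset.mem_filter, Finset.mem_univ, true_and]
  exact Or.inr ⟨w, hw, h⟩

theorem lev_nbr {a : ℕ} {u : V} (hu : u ∈ lev G H a) : ∃ w ∈ Bd G H a, G.Adj u w := by
  unfold lev at hu
  rw [Finset.mem_sdiff] at hu
  obtain ⟨h1, h2⟩ := hu
  simp only [Bd, Finset.mem_filter, Finset.mem_univ, true_and] at h1
  exact h1.resolve_left h2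

theorem lev_nbr_lev {a : ℕ} {u w : V} (hu : u ∈ lev G H (a + 1)) (hw : w ∈ Bd G H (a + 1))
    (h : G.Adj u w) : w ∈ lev G H a := by
  unfold lev at hu ⊢
  rw [Finset.mem_sdiff] at hu ⊢
  exact ⟨hw, fun h' => hu.2 (mem_Bd_succ_of_adj h' h)⟩

theorem lev_sub (a : ℕ) : lev G H a ⊆ Hᶜ := by
  intro u hu
  unfold lev at hu
  rw [Finset.mem_sdiff] at hu
  rw [Finset.mem_compl]
  exact fun h => hu.2 (H_sub_Bd a h)

/-- neighbours of `p` in the next level -/
def ch (G : SimpleGraph V) [DecidableRel G.Adj] (H : Finset V) (a : ℕ) (p : V) : ℕ :=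
  (G.neighborFinset p ∩ lev G H (a + 1)).card

theorem card_lev_succ_le (a : ℕ) : (lev G H (a + 1)).card ≤ ∑ p ∈ lev G H a, ch G H a p := by
  have h1 : lev G H (a + 1) ⊆ (lev G H a).biUnion (fun p => G.neighborFinset p ∩ lev G H (a + 1)) := by
    intro u hu
    obtain ⟨w, hw, hadj⟩ := lev_nbr hu
    rw [Finset.mem_biUnion]
    refine ⟨w, lev_nbr_lev hu hw hadj, ?_⟩
    rw [Finset.mem_inter, SimpleGraph.mem_neighborFinset]
    exact ⟨hadj.symm, hu⟩
  exact (Finset.card_le_card h1).trans Finset.card_biUnion_le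

/-- level zero -/
theorem ch_zero {p : V} (hp : p ∈ lev G H 0) :
    ch G H 0 p + (G.neighborFinset p ∩ H).card ≤ G.degree p ∧ 1 ≤ (G.neighborFinset p ∩ H).card := by
  constructor
  · unfold ch
    rw [← SimpleGraph.card_neighborFinset_eq_degree, ← Finset.card_union_of_disjoint]
    · apply Finset.card_le_card
      exact Finset.union_subset Finset.inter_subset_left Finset.inter_subset_left
    · rw [Finset.disjoint_left]
      intro x hx hx'
      rw [Finset.mem_inter] at hx hx'
      have := lev_sub _ hx.2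
      rw [Finset.mem_compl] at this
      exact this hx'.2
  · obtain ⟨w, hw, hadj⟩ := lev_nbr hp
    refine Finset.card_pos.2 ⟨w, ?_⟩
    rw [Finset.mem_inter, SimpleGraph.mem_neighborFinset]
    exact ⟨hadj, hw⟩

theorem ch_succ {a : ℕ} {p : V} (hp : p ∈ lev G H a) :
    ch G H a p + 1 ≤ G.degree p := by
  obtain ⟨w, hw, hadj⟩ := lev_nbr hp
  unfold ch
  rw [← SimpleGraph.card_neighborFinset_eq_degree]
  have h1 : w ∉ G.neighborFinset p ∩ lev G H (a + 1) := by
    intro h
    rw [Finset.mem_inter] at h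
    have h2 := h.2
    unfold lev at h2
    rw [Finset.mem_sdiff] at h2
    exact h2.2 (Bd_mono a hw)
  rw [← Finset.card_insert_of_notMem h1]
  apply Finset.card_le_card
  intro x hx
  rw [Finset.mem_insert] at hx
  rcases hx with rfl | hx
  · rw [SimpleGraph.mem_neighborFinset]; exact hadj
  · exact (Finset.mem_inter.1 hx).1

theorem sum_ch_le {k : ℕ} (hk : 2 ≤ k) (hdeg : ∀ u, k ≤ G.degree u) (a : ℕ) :
    ∑ p ∈ lev G H a, ch G H a p ≤
      (k - 1) * ((if a = 0 then 0 else (lev G H a).card) + ∑ p ∈ lev G H a, exc G H k p) := by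
  rw [mul_add, Finset.mul_sum]
  by_cases ha : a = 0
  · subst ha
    simp only [if_true, mul_zero, zero_add]
    refine Finset.sum_le_sum fun p hp => ?_
    obtain ⟨h1, h2⟩ := ch_zero hp
    have h3 := hdeg p
    unfold exc
    obtain ⟨m, rfl⟩ : ∃ m, k = m + 2 := ⟨k - 2, by omega⟩
    set h := (G.neighborFinset p ∩ H).card
    set e := G.degree p - (m + 2) with he
    have h4 : ch G H 0 p + h ≤ e + (m + 2) := by omega
    have h5 : m + 2 - 1 = m + 1 := by omega
    rw [h5]
    have h6 : m * 1 ≤ m * (e + h) := Nat.mul_le_mul_left _ (by omega)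
    nlinarith
  · rw [if_neg ha]
    have h1 : ∑ p ∈ lev G H a, ch G H a p ≤ ∑ p ∈ lev G H a, ((k - 1) + (k - 1) * exc G H k p) := by
      refine Finset.sum_le_sum fun p hp => ?_
      have h2 := ch_succ hp
      have h3 := hdeg p
      have h4 : G.degree p - k ≤ exc G H k p := by unfold exc; omega
      have h5 : exc G H k p ≤ (k - 1) * exc G H k p := Nat.le_mul_of_pos_left _ (by omega)
      omega
    refine h1.trans (le_of_eq ?_)
    rw [Finset.sum_add_distrib, Finset.sum_const, smul_eq_mul, mul_comm]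

theorem lev_strong {k : ℕ} (hk : 2 ≤ k) (hdeg : ∀ u, k ≤ G.degree u) (a : ℕ) :
    (lev G H a).card + (if a = 0 then 0 else ∑ u ∈ lev G H a, exc G H k u) ≤
      (k - 1) ^ a * ∑ u ∈ Bd G H (a + 1) \ H, exc G H k u := by
  induction a with
  | zero =>
    simp only [if_true, add_zero, pow_zero, one_mul]
    have h1 : lev G H 0 = Bd G H (0 + 1) \ H := rfl
    rw [← h1, Finset.card_eq_sum_ones]
    refine Finset.sum_le_sum fun p hp => ?_
    obtain ⟨-, h2⟩ := ch_zero hp
    unfold exc; omega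
  | succ a ih =>
    rw [if_neg (by omega)]
    have hsplit : ∑ u ∈ Bd G H (a + 1 + 1) \ H, exc G H k u =
        ∑ u ∈ Bd G H (a + 1) \ H, exc G H k u + ∑ u ∈ lev G H (a + 1), exc G H k u := by
      rw [← Finset.sum_union]
      · apply Finset.sum_congr _ (fun _ _ => rfl)
        ext u
        unfold lev
        simp only [Finset.mem_sdiff, Finset.mem_union]
        constructor
        · rintro ⟨h1, h2⟩
          by_cases h3 : u ∈ Bd G H (a + 1)
          · exact Or.inl ⟨h3, h2⟩
          · exact Or.inr ⟨h1, h3⟩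
        · rintro (⟨h1, h2⟩ | ⟨h1, h2⟩)
          · exact ⟨Bd_mono _ h1, h2⟩
          · exact ⟨h1, fun h => h2 (H_sub_Bd _ h)⟩
      · rw [Finset.disjoint_left]
        intro u h1 h2
        unfold lev at h2
        rw [Finset.mem_sdiff] at h1 h2
        exact h2.2 h1.1
    have h1 := card_lev_succ_le (G := G) (H := H) a
    have h2 := sum_ch_le (G := G) (H := H) hk hdeg a
    have hlev : ∑ p ∈ lev G H a, exc G H k p ≤ ∑ u ∈ Bd G H (a + 1) \ H, exc G H k u := by
      apply Finset.sum_le_sum_of_subset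
      intro u hu
      unfold lev at hu
      rw [Finset.mem_sdiff] at hu ⊢
      exact ⟨hu.1, fun h => hu.2 (H_sub_Bd _ h)⟩
    have h3 : (if a = 0 then 0 else (lev G H a).card) + ∑ p ∈ lev G H a, exc G H k p ≤
        (k - 1) ^ a * ∑ u ∈ Bd G H (a + 1) \ H, exc G H k u := by
      by_cases ha : a = 0
      · subst ha
        simp only [if_true, zero_add, pow_zero, one_mul]
        exact hlev
      · rw [if_neg ha] at ih ⊢
        exact ih
    have h4 : (k - 1) * ((if a = 0 then 0 else (lev G H a).card) + ∑ p ∈ lev G H a, exc G H k p) ≤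
        (k - 1) * ((k - 1) ^ a * ∑ u ∈ Bd G H (a + 1) \ H, exc G H k u) := Nat.mul_le_mul_left _ h3
    have h5 : (k - 1) * ((k - 1) ^ a * ∑ u ∈ Bd G H (a + 1) \ H, exc G H k u) =
        (k - 1) ^ (a + 1) * ∑ u ∈ Bd G H (a + 1) \ H, exc G H k u := by rw [pow_succ]; ring
    have h6 : ∑ u ∈ lev G H (a + 1), exc G H k u ≤
        (k - 1) ^ (a + 1) * ∑ u ∈ lev G H (a + 1), exc G H k u :=
      Nat.le_mul_of_pos_left _ (Nat.pow_pos (by omega))
    rw [hsplit, mul_add]
    omega

theorem sum_lev_le_E {k : ℕ} (a : ℕ) :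
    ∑ u ∈ Bd G H a \ H, exc G H k u ≤ ∑ u ∈ Hᶜ, exc G H k u := by
  apply Finset.sum_le_sum_of_subset
  intro u hu
  rw [Finset.mem_sdiff] at hu
  rw [Finset.mem_compl]
  exact hu.2

/-- double counting of the edges between two consecutive levels -/
theorem double_count (a : ℕ) :
    ∑ y ∈ lev G H (a + 1), (G.neighborFinset y ∩ Bd G H (a + 1)).card =
      ∑ p ∈ lev G H a, ch G H a p := by
  have h1 := Finset.sum_card_bipartiteAbove_eq_sum_card_bipartiteBelow (s := lev G H (a + 1))
    (t := lev G H a) (r := fun y p => G.Adj y p)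
  have h2 : ∀ y ∈ lev G H (a + 1), (G.neighborFinset y ∩ Bd G H (a + 1)).card =
      (Finset.bipartiteAbove (fun y p => G.Adj y p) (lev G H a) y).card := by
    intro y hy
    congr 1
    ext x
    simp only [Finset.mem_bipartiteAbove, Finset.mem_inter, SimpleGraph.mem_neighborFinset]
    constructor
    · rintro ⟨h3, h4⟩; exact ⟨lev_nbr_lev hy h4 h3, h3⟩
    · rintro ⟨h3, h4⟩
      refine ⟨h4, ?_⟩
      unfold lev at h3
      exact (Finset.mem_sdiff.1 h3).1
  have h3 : ∀ p ∈ lev G H a, ch G H a p =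
      (Finset.bipartiteBelow (fun y p => G.Adj y p) (lev G H (a + 1)) p).card := by
    intro p _
    unfold ch
    congr 1
    ext x
    simp only [Finset.mem_bipartiteBelow, Finset.mem_inter, SimpleGraph.mem_neighborFinset]
    constructor
    · rintro ⟨h3, h4⟩; exact ⟨h4, h3.symm⟩
    · rintro ⟨h3, h4⟩; exact ⟨h4.symm, h3⟩
  rw [Finset.sum_congr rfl h2, h1, Finset.sum_congr rfl h3]

theorem two_card_le (a : ℕ) :
    2 * (lev G H (a + 1)).card ≤ ∑ p ∈ lev G H a, ch G H a p + (Spec G H (a + 3)).card := by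
  rw [← double_count]
  have h1 : (Spec G H (a + 3)) = (lev G H (a + 1)).filter
      (fun y => (G.neighborFinset y ∩ Bd G H (a + 1)).card = 1) := rfl
  rw [h1, Finset.card_filter, ← Finset.sum_add_distrib, Finset.card_eq_sum_ones, Finset.mul_sum]
  refine Finset.sum_le_sum fun y hy => ?_
  obtain ⟨w, hw, hadj⟩ := lev_nbr hy
  have h2 : 1 ≤ (G.neighborFinset y ∩ Bd G H (a + 1)).card := by
    refine Finset.card_pos.2 ⟨w, ?_⟩
    rw [Finset.mem_inter, SimpleGraph.mem_neighborFinset]
    exact ⟨hadj, hw⟩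
  split_ifs with h3
  · omega
  · omega

theorem card_Spec_le (a : ℕ) :
    (Spec G H (a + 3)).card ≤ ∑ p ∈ lev G H a, (G.neighborFinset p ∩ Spec G H (a + 3)).card := by
  have h1 : Spec G H (a + 3) ⊆ (lev G H a).biUnion (fun p => G.neighborFinset p ∩ Spec G H (a + 3)) := by
    intro u hu
    have hu' : u ∈ lev G H (a + 1) := (Finset.mem_filter.1 hu).1
    obtain ⟨w, hw, hadj⟩ := lev_nbr hu'
    rw [Finset.mem_biUnion]
    refine ⟨w, lev_nbr_lev hu' hw hadj, ?_⟩
    rw [Finset.mem_inter, SimpleGraph.mem_neighborFinset]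
    exact ⟨hadj.symm, hu⟩
  exact (Finset.card_le_card h1).trans Finset.card_biUnion_le

theorem last_aux {k a b : ℕ} (hk : 2 ≤ k) (hdeg : ∀ u, k ≤ G.degree u)
    (hs : (Spec G H (a + 3)).card ≤ b ∨
      ∀ p ∈ lev G H a, G.degree p = k → (G.neighborFinset p ∩ Spec G H (a + 3)).card ≤ 1) :
    2 * (lev G H (a + 1)).card ≤
      k * (k - 1) ^ a * ∑ u ∈ Bd G H (a + 1) \ H, exc G H k u + b := by
  have h0 := two_card_le (G := G) (H := H) a
  have hstr := lev_strong (G := G) (H := H) hk hdeg a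
  have hlev : ∑ p ∈ lev G H a, exc G H k p ≤ ∑ u ∈ Bd G H (a + 1) \ H, exc G H k u := by
    apply Finset.sum_le_sum_of_subset
    intro u hu
    unfold lev at hu
    rw [Finset.mem_sdiff] at hu ⊢
    exact ⟨hu.1, fun h => hu.2 (H_sub_Bd _ h)⟩
  have h3 : (if a = 0 then 0 else (lev G H a).card) + ∑ p ∈ lev G H a, exc G H k p ≤
      (k - 1) ^ a * ∑ u ∈ Bd G H (a + 1) \ H, exc G H k u := by
    by_cases ha : a = 0
    · subst ha
      simp only [if_true, zero_add, pow_zero, one_mul]
      exact hlev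
    · rw [if_neg ha] at hstr ⊢
      exact hstr
  rcases hs with hs | hs
  · have h2 := sum_ch_le (G := G) (H := H) hk hdeg a
    have h4 : (k - 1) * ((if a = 0 then 0 else (lev G H a).card) + ∑ p ∈ lev G H a, exc G H k p) ≤
        k * ((k - 1) ^ a * ∑ u ∈ Bd G H (a + 1) \ H, exc G H k u) :=
      Nat.mul_le_mul (by omega) h3
    rw [← mul_assoc] at h4
    omega
  · have h5 := card_Spec_le (G := G) (H := H) a
    have hsub : ∀ p, (G.neighborFinset p ∩ Spec G H (a + 3)).card ≤ ch G H a p := by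
      intro p
      unfold ch
      apply Finset.card_le_card
      apply Finset.inter_subset_inter_left
      exact Finset.filter_subset _ _
    have h6 : ∑ p ∈ lev G H a, (ch G H a p + (G.neighborFinset p ∩ Spec G H (a + 3)).card) ≤
        k * ((if a = 0 then 0 else (lev G H a).card) + ∑ p ∈ lev G H a, exc G H k p) := by
      rw [mul_add, Finset.mul_sum]
      by_cases ha : a = 0
      · subst ha
        simp only [if_true, mul_zero, zero_add]
        refine Finset.sum_le_sum fun p hp => ?_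
        obtain ⟨h1, h2⟩ := ch_zero hp
        have h3 := hdeg p
        have h7 := hsub p
        simp only [zero_add] at h7
        rcases Nat.eq_or_lt_of_le h3 with h8 | h8
        · have h9 := hs p hp h8.symm
          simp only [zero_add] at h9
          have h10 : exc G H k p = (G.neighborFinset p ∩ H).card := by unfold exc; omega
          rw [h10]
          have h11 : k * 1 ≤ k * (G.neighborFinset p ∩ H).card := Nat.mul_le_mul_left _ h2
          omega
        · obtain ⟨m, rfl⟩ : ∃ m, k = m + 2 := ⟨k - 2, by omega⟩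
          have h10 : exc G H (m + 2) p = G.degree p - (m + 2) + (G.neighborFinset p ∩ H).card := rfl
          have h11 : 2 ≤ exc G H (m + 2) p := by omega
          have h12 : m * 2 ≤ m * exc G H (m + 2) p := Nat.mul_le_mul_left _ h11
          have h13 : ch G H 0 p ≤ m + exc G H (m + 2) p := by omega
          nlinarith
      · rw [if_neg ha]
        have h1 : ∑ p ∈ lev G H a, (ch G H a p + (G.neighborFinset p ∩ Spec G H (a + 3)).card) ≤
            ∑ p ∈ lev G H a, (k + k * exc G H k p) := by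
          refine Finset.sum_le_sum fun p hp => ?_
          have h2 := ch_succ hp
          have h3 := hdeg p
          have h7 := hsub p
          rcases Nat.eq_or_lt_of_le h3 with h8 | h8
          · have h9 := hs p hp h8.symm
            omega
          · obtain ⟨m, rfl⟩ : ∃ m, k = m + 2 := ⟨k - 2, by omega⟩
            have h10 : exc G H (m + 2) p = G.degree p - (m + 2) + (G.neighborFinset p ∩ H).card := rfl
            have h11 : 1 ≤ exc G H (m + 2) p := by omega
            have h12 : m * 1 ≤ m * exc G H (m + 2) p := Nat.mul_le_mul_left _ h11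
            have h13 : ch G H a p ≤ m + 1 + exc G H (m + 2) p := by omega
            nlinarith
        refine h1.trans (le_of_eq ?_)
        rw [Finset.sum_add_distrib, Finset.sum_const, smul_eq_mul, mul_comm]
    rw [Finset.sum_add_distrib] at h6
    have h4 : k * ((if a = 0 then 0 else (lev G H a).card) + ∑ p ∈ lev G H a, exc G H k p) ≤
        k * ((k - 1) ^ a * ∑ u ∈ Bd G H (a + 1) \ H, exc G H k u) := Nat.mul_le_mul_left _ h3
    rw [← mul_assoc] at h4
    omega

theorem last_le {k r b : ℕ} (hk : 2 ≤ k) (hr : 3 ≤ r) (hdeg : ∀ u, k ≤ G.degree u)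
    (hs : (Spec G H r).card ≤ b ∨
      ∀ p ∈ lev G H (r - 3), G.degree p = k → (G.neighborFinset p ∩ Spec G H r).card ≤ 1) :
    2 * (lev G H (r - 2)).card ≤
      k * (k - 1) ^ (r - 3) * ∑ u ∈ Bd G H (r - 2) \ H, exc G H k u + b := by
  obtain ⟨a, rfl⟩ : ∃ a, r = a + 3 := ⟨r - 3, by omega⟩
  have h1 : a + 3 - 3 = a := by omega
  have h2 : a + 3 - 2 = a + 1 := by omega
  rw [h1] at hs ⊢
  rw [h2]
  exact last_aux hk hdeg hs

theorem card_Bd_le (t : ℕ) : (Bd G H t).card ≤ H.card + ∑ a ∈ Finset.range t, (lev G H a).card := by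
  induction t with
  | zero => simp [Bd]
  | succ t ih =>
    rw [Finset.sum_range_succ]
    have h1 : (Bd G H (t + 1)).card ≤ (Bd G H t).card + (lev G H t).card := by
      have h2 : Bd G H (t + 1) ⊆ Bd G H t ∪ lev G H t := by
        intro u hu
        rw [Finset.mem_union]
        by_cases h : u ∈ Bd G H t
        · exact Or.inl h
        · right; unfold lev; exact Finset.mem_sdiff.2 ⟨hu, h⟩
      exact (Finset.card_le_card h2).trans (Finset.card_union_le _ _)
    omega

theorem sum_Bd_mono {k a b : ℕ} (h : a ≤ b) :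
    ∑ u ∈ Bd G H a \ H, exc G H k u ≤ ∑ u ∈ Bd G H b \ H, exc G H k u := by
  apply Finset.sum_le_sum_of_subset
  have h1 : Bd G H a ⊆ Bd G H b := by
    induction b with
    | zero => simp_all
    | succ b ih =>
      rcases Nat.lt_or_ge a (b + 1) with h2 | h2
      · exact (ih (by omega)).trans (Bd_mono b)
      · rw [show a = b + 1 by omega]
  exact Finset.sdiff_subset_sdiff h1 (Finset.Subset.refl _)

theorem total {k r b : ℕ} (hk : 2 ≤ k) (hr : 3 ≤ r) (hdeg : ∀ u, k ≤ G.degree u)
    (hT : ((Bd G H (r - 1))ᶜ).card ≤ 2 * ∑ u ∈ (Bd G H (r - 2))ᶜ, exc G H k u + b)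
    (hs : (Spec G H r).card ≤ b ∨
      ∀ p ∈ lev G H (r - 3), G.degree p = k → (G.neighborFinset p ∩ Spec G H r).card ≤ 1) :
    2 * Fintype.card V ≤ 2 * H.card + 3 * b +
      (2 * ∑ a ∈ Finset.range (r - 2), (k - 1) ^ a + k * (k - 1) ^ (r - 3)) *
        ∑ u ∈ Hᶜ, exc G H k u := by
  have h1 := last_le (G := G) (H := H) hk hr hdeg hs
  have hsplit : ∑ u ∈ Bd G H (r - 2) \ H, exc G H k u + ∑ u ∈ (Bd G H (r - 2))ᶜ, exc G H k u =
      ∑ u ∈ Hᶜ, exc G H k u := by
    rw [← Finset.sum_union]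
    · apply Finset.sum_congr _ (fun _ _ => rfl)
      ext u
      simp only [Finset.mem_union, Finset.mem_sdiff, Finset.mem_compl]
      constructor
      · rintro (⟨-, h2⟩ | h2)
        · exact h2
        · exact fun h => h2 (H_sub_Bd _ h)
      · intro h2
        by_cases h3 : u ∈ Bd G H (r - 2)
        · exact Or.inl ⟨h3, h2⟩
        · exact Or.inr h3
    · rw [Finset.disjoint_left]
      intro u h2 h3
      rw [Finset.mem_sdiff] at h2
      rw [Finset.mem_compl] at h3
      exact h3 h2.1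
  rw [← hsplit]
  set E := ∑ u ∈ Bd G H (r - 2) \ H, exc G H k u with hE
  set F := ∑ u ∈ (Bd G H (r - 2))ᶜ, exc G H k u with hF
  have h2 : ∀ a ∈ Finset.range (r - 2), (lev G H a).card ≤ (k - 1) ^ a * E := by
    intro a ha
    rw [Finset.mem_range] at ha
    have h3 := lev_strong (G := G) (H := H) hk hdeg a
    have h4 := Nat.mul_le_mul_left ((k - 1) ^ a) (sum_Bd_mono (G := G) (H := H) (k := k)
      (show a + 1 ≤ r - 2 by omega))
    exact (Nat.le_add_right _ _).trans (h3.trans h4)
  have h3 := Finset.sum_le_sum h2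
  rw [← Finset.sum_mul] at h3
  have h4 := card_Bd_le (G := G) (H := H) (r - 1)
  have h5 : r - 1 = (r - 2) + 1 := by omega
  rw [h5, Finset.sum_range_succ, ← h5] at h4
  have h6 : (Bd G H (r - 1))ᶜ.card + (Bd G H (r - 1)).card = Fintype.card V :=
    Finset.card_compl_add_card _
  have h7 : (2 * ∑ a ∈ Finset.range (r - 2), (k - 1) ^ a + k * (k - 1) ^ (r - 3)) * (E + F) =
      2 * ((∑ a ∈ Finset.range (r - 2), (k - 1) ^ a) * E) + k * (k - 1) ^ (r - 3) * E +
      (2 * ∑ a ∈ Finset.range (r - 2), (k - 1) ^ a + k * (k - 1) ^ (r - 3)) * F := by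
    ring
  have h8 : 4 ≤ 2 * ∑ a ∈ Finset.range (r - 2), (k - 1) ^ a + k * (k - 1) ^ (r - 3) := by
    have h9 : (k - 1) ^ 0 ≤ ∑ a ∈ Finset.range (r - 2), (k - 1) ^ a :=
      Finset.single_le_sum (f := fun a => (k - 1) ^ a) (fun _ _ => Nat.zero_le _)
        (Finset.mem_range.2 (by omega))
    rw [pow_zero] at h9
    have h10 : 2 * 1 ≤ k * (k - 1) ^ (r - 3) :=
      Nat.mul_le_mul hk (Nat.one_le_pow _ _ (by omega))
    omega
  have h9 := Nat.mul_le_mul_right F h8
  rw [h7]
  omega

end Pool.Agent.FTE
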