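import Pool.Agent.Helper68.FTLower
import Pool.Agent.Helper68.FTUpper

/-!
# Lower bound for even diameters: definitions
-/

set_option autoImplicit false

namespace Pool.Agent.FTE

open Pool.Agent.Helper68

variable {V : Type} [Fintype V] [DecidableEq V] (G : SimpleGraph V) [DecidableRel G.Adj]
  (H : Finset V)

/-- the vertices at distance at most `t` from `H` -/
def Bd : ℕ → Finset V
  | 0 => H
  | t + 1 => Finset.univ.filter (fun u => u ∈ Bd t ∨ ∃ w ∈ Bd t, G.Adj u w)

/-- the vertices at distance `a + 1` from `H` -/
def lev (a : ℕ) : Finset V := Bd G H (a + 1) \ Bd G H a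

/-- the excess of a vertex -/
def exc (k : ℕ) (u : V) : ℕ := G.degree u - k + (G.neighborFinset u ∩ H).card

/-- the vertices of the level `r - 2` with exactly one neighbour of smaller level -/
def Spec (r : ℕ) : Finset V :=
  (lev G H (r - 2)).filter (fun y => (G.neighborFinset y ∩ Bd G H (r - 2)).card = 1)

/-- a walk of length at most `t` from `u` to `H` avoiding `S` -/
def HC (S : Finset V) (t : ℕ) (u : V) : Prop := ∃ x ∈ H, Conn G S t u x

end Pool.Agent.FTE
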