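import Pool.Agent.FTE.LA
import Pool.Agent.FTE.LB
import Pool.Agent.Helper68.FTLimit

/-!
# The lower bound for even diameters
-/

set_option autoImplicit false

namespace Pool.Agent.FTE

open Pool.Agent.Helper68 Filter Topology

/-- the denominator of the lower bound -/
def Mr (r k : ℕ) : ℕ :=
  2 * ∑ a ∈ Finset.range (r - 2), (k - 1) ^ a + k * (k - 1) ^ (r - 3)

theorem fhat_lower {n k r D : ℕ} (hk : 2 ≤ k) (hr : 3 ≤ r) (hn : k + 1 ≤ n) (hD1 : 1 ≤ D) :
    ∃ a : ℕ, a * D ≤ 2 * fhat n (2 * r) k ∧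
      2 * n + Mr r k * (k * n) ≤ 2 * a + 3 * (2 * r * D ^ (2 * r) + k + 1) +
        Mr r k * (2 * fhat n (2 * r) k + k * a) := by
  classical
  obtain ⟨G, h1, h2⟩ := exists_opt (n := n) (d := 2 * r) (k := k) (by omega)
  have h3 : G.edgeFinset.card = fhat n (2 * r) k := by
    rw [← h2, ← SimpleGraph.coe_edgeFinset, Set.ncard_coe_finset]
  have hcard : k + 1 ≤ Fintype.card (Fin n) := by simpa using hn
  have hdeg : ∀ u, k ≤ G.degree u := fun u => h1.le_degree (by omega) hcard u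
  have hD : ∀ x ∉ hubs G D, G.degree x ≤ D := fun x hx => degree_le_of_notMem_hubs hx
  have h4 := card_T (H := hubs G D) (D := D) h1 (by omega) (by omega) hcard hdeg hD1 hD
  have h5 := spec_cases (H := hubs G D) (D := D) h1 hk hr hcard hD1 hD
  have h6 := total (b := 2 * r * D ^ (2 * r) + k + 1) hk hr hdeg h4 h5
  have h7 := exc_sum (H := hubs G D) hdeg
  have h8 := card_hubs_mul_le (G := G) D
  rw [h3] at h7 h8
  rw [Fintype.card_fin] at h6 h7
  refine ⟨(hubs G D).card, h8, ?_⟩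
  have h9 : Mr r k * (∑ u ∈ (hubs G D)ᶜ, exc G (hubs G D) k u + k * n) ≤
      Mr r k * (2 * fhat n (2 * r) k + k * (hubs G D).card) := Nat.mul_le_mul_left _ h7
  have h10 : 2 * n ≤ 2 * (hubs G D).card + 3 * (2 * r * D ^ (2 * r) + k + 1) +
      Mr r k * ∑ u ∈ (hubs G D)ᶜ, exc G (hubs G D) k u := h6
  rw [Nat.mul_add] at h9
  omega

theorem Mr_pos {r k : ℕ} (hk : 2 ≤ k) : 0 < Mr r k := by
  unfold Mr
  have h : 0 < k * (k - 1) ^ (r - 3) := Nat.mul_pos (by omega) (Nat.pow_pos (by omega))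
  omega

theorem lower {k r : ℕ} (hk : 2 ≤ k) (hr : 3 ≤ r) {ε : ℝ} (hε : 0 < ε) :
    ∀ᶠ n : ℕ in atTop, 1 / (Mr r k : ℝ) - ε ≤ phihat n (2 * r) k / n := by
  have hM : (0 : ℝ) < Mr r k := by exact_mod_cast Mr_pos (r := r) hk
  have hk0 : (0 : ℝ) < k := by
    have : 0 < k := by omega
    exact_mod_cast this
  -- the hub threshold
  obtain ⟨D, hD⟩ := exists_nat_gt ((2 + Mr r k * k) * (2 * k) / (2 * Mr r k) / (ε / 2) + 1)
  have hD1 : (1 : ℝ) < D := by
    have : 0 ≤ (2 + Mr r k * k) * (2 * (k : ℝ)) / (2 * Mr r k) / (ε / 2) := by positivity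
    linarith
  have hD0 : (0 : ℝ) < D := by linarith
  have hD2 : (2 + Mr r k * k) * (2 * k) ≤ (ε / 2) * D * (2 * (Mr r k : ℝ)) := by
    have h1 : (2 + Mr r k * k) * (2 * (k : ℝ)) / (2 * Mr r k) / (ε / 2) < D := by linarith
    rw [div_lt_iff₀ (by positivity), div_lt_iff₀ (by positivity)] at h1
    nlinarith
  have hev : ∀ᶠ n : ℕ in atTop,
      3 * (2 * r * (D : ℝ) ^ (2 * r) + k + 1) / (2 * Mr r k) / (ε / 2) < (n : ℝ) :=
    tendsto_natCast_atTop_atTop.eventually_gt_atTop _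
  filter_upwards [hev, eventually_ge_atTop (k + 1), eventually_ge_atTop (2 * k)] with n h1 h2 h2'
  obtain ⟨a, h3, h4⟩ := fhat_lower (D := D) hk hr h2 (by exact_mod_cast hD1.le)
  have hn : (0 : ℝ) < n := by
    have : 0 < n := by omega
    exact_mod_cast this
  -- the trivial upper bound
  have h5 : fhat n (2 * r) k ≤ k * n :=
    (fhat_anti (by omega) (by omega : 2 ≤ 2 * r)).trans ((fhat_two_le (by omega) h2').trans
      (Nat.mul_le_mul_left _ (Nat.sub_le _ _)))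
  have h6 : (a : ℝ) * D ≤ 2 * (k * n) := by
    have : a * D ≤ 2 * (k * n) := by omega
    exact_mod_cast this
  have h7 : 2 * (n : ℝ) + Mr r k * (k * n) ≤ 2 * a + 3 * (2 * r * D ^ (2 * r) + k + 1) +
        Mr r k * (2 * fhat n (2 * r) k + k * a) := by exact_mod_cast h4
  rw [div_lt_iff₀ (by positivity), div_lt_iff₀ (by positivity)] at h1
  have h8 : (2 + Mr r k * k) * (a : ℝ) ≤ ε / 2 * (2 * Mr r k) * n := by
    have h9 : (2 + Mr r k * k) * (a : ℝ) * D ≤ (2 + Mr r k * k) * (2 * (k * n)) := by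
      have : (0 : ℝ) ≤ 2 + Mr r k * k := by positivity
      nlinarith [mul_le_mul_of_nonneg_left h6 this]
    have h10 : (2 + Mr r k * k) * (2 * (k * (n : ℝ))) ≤ (ε / 2) * D * (2 * (Mr r k : ℝ)) * n := by
      have := mul_le_mul_of_nonneg_right hD2 hn.le
      linarith
    have h11 : (2 + Mr r k * k) * (a : ℝ) * D ≤ ε / 2 * (2 * Mr r k) * n * D := by linarith
    exact le_of_mul_le_mul_right h11 hD0
  rw [sub_le_iff_le_add, div_le_iff₀ hM]
  have h12 : 2 * phihat n (2 * r) k = 2 * fhat n (2 * r) k - k * n := by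
    unfold phihat; ring
  have h13 : (2 : ℝ) * n ≤ Mr r k * (2 * phihat n (2 * r) k) + ε * (2 * Mr r k) * n := by
    rw [h12]
    nlinarith
  have h14 : (phihat n (2 * r) k / n + ε) * Mr r k =
      (Mr r k * (2 * phihat n (2 * r) k) + ε * (2 * Mr r k) * n) / (2 * n) := by
    field_simp
  rw [h14, le_div_iff₀ (by positivity)]
  linarith

end Pool.Agent.FTE
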