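import Pool.Agent.FTE.ODefs
import Pool.Agent.FTA.LPath

/-!
# Lower bound for odd diameters: the exceptional vertices
-/

set_option autoImplicit false

namespace Pool.Agent.FTE

open Pool.Agent.Helper68

variable {V : Type} [Fintype V] [DecidableEq V] {G : SimpleGraph V} [DecidableRel G.Adj]
  {H : Finset V}

theorem card_Hs_le {D : ℕ} (hD1 : 1 ≤ D) (hD : ∀ x ∉ H, G.degree x ≤ D) (t : ℕ) {v : V}
    (hv : v ∉ H) : (Hs G H t v).card ≤ D ^ t := by
  induction t generalizing v with
  | zero => simp [Hs]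
  | succ t ih =>
    rw [Hs]
    refine (Finset.card_union_le _ _).trans ?_
    have h1 : ((G.neighborFinset v \ H).biUnion (Hs G H t)).card ≤
        (G.neighborFinset v \ H).card * D ^ t := by
      refine Finset.card_biUnion_le_card_mul _ _ _ ?_
      intro u hu
      rw [Finset.mem_sdiff] at hu
      exact ih hu.2
    have h2 : (G.neighborFinset v ∩ H).card ≤ (G.neighborFinset v ∩ H).card * D ^ t :=
      Nat.le_mul_of_pos_right _ (Nat.pow_pos (by omega))
    have h3 : (G.neighborFinset v ∩ H).card + (G.neighborFinset v \ H).card = G.degree v := by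
      rw [← SimpleGraph.card_neighborFinset_eq_degree]
      exact Finset.card_inter_add_card_sdiff _ _
    have h4 := Nat.mul_le_mul_right (D ^ t) (hD v hv)
    rw [← h3, Nat.add_mul] at h4
    rw [pow_succ, Nat.mul_comm (D ^ t) D]
    omega

theorem Hs_of_path {S : Finset V} {ℓ : ℕ} {p : ℕ → V} {u v : V}
    (h : PathAvoid G S ℓ p u v) {t : ℕ} (ht : t ≤ ℓ) (hp : p t ∈ H) (hlow : ∀ i < t, p i ∉ H) :
    ∀ i, i + 1 ≤ t → p t ∈ Hs G H (i + 1) (p (t - (i + 1))) := by
  intro i
  induction i with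
  | zero =>
    intro hi
    have h2 := h.2.2.1 (t - (0 + 1)) (by omega)
    rw [show t - (0 + 1) + 1 = t by omega] at h2
    rw [Hs, Finset.mem_union, Finset.mem_inter, SimpleGraph.mem_neighborFinset]
    exact Or.inl ⟨by simpa using h2, hp⟩
  | succ i ih =>
    intro hi
    have h0 := ih (by omega)
    have h1 := hlow (t - (i + 1)) (by omega)
    have h2 := h.2.2.1 (t - (i + 1 + 1)) (by omega)
    rw [show t - (i + 1 + 1) + 1 = t - (i + 1) by omega] at h2
    exact Hs_step h2.symm h1 h0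

theorem Hs_of_path' {S : Finset V} {ℓ : ℕ} {p : ℕ → V} {u v : V}
    (h : PathAvoid G S ℓ p u v) {t : ℕ} (ht : t ≤ ℓ) (ht1 : 1 ≤ t) (hp : p t ∈ H)
    (hlow : ∀ i < t, p i ∉ H) : p t ∈ Hs G H t u := by
  have h1 := Hs_of_path h ht hp hlow (t - 1) (by omega)
  rw [show t - 1 + 1 = t by omega, Nat.sub_self, h.1] at h1
  exact h1

theorem far_common {d k r : ℕ} (h : FaultTolerant G d k) (hk : 1 ≤ k) (hr : 1 ≤ r)
    (hd : d ≤ 2 * r + 1) (hn : k + 1 ≤ Fintype.card V) {u v : V} (hu : u ∉ H) (hv : v ∉ H)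
    (hne : v ≠ u) (hS : (Hs G H r u).card + (Hs G H (r - 1) v).card < k) :
    v ∈ Ball G H d u ∨ ∃ x, x ∈ Hs G H (r + 1) u ∧ x ∉ Hs G H r u ∧ x ∈ Hs G H r v := by
  obtain ⟨ℓ, hℓ, p, hp⟩ := h.path hk hn (S := Hs G H r u ∪ Hs G H (r - 1) v)
    ((Finset.card_union_le _ _).trans (by omega)) (u := u) (v := v)
    (fun hx => hu (Finset.union_subset (Hs_sub _ _) (Hs_sub _ _) hx))
    (fun hx => hv (Finset.union_subset (Hs_sub _ _) (Hs_sub _ _) hx))
  rcases Pool.Agent.FTA.path_cases' hp hℓ hu hv hne with h1 | ⟨t, t', ht, ht', htt, h1, h2, h3, h4,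
    h5, h6⟩
  · exact Or.inl h1
  · right
    have e1 := Hs_of_path' hp ht h3 h1 h5
    have e2 := Hs_of_path' (H := H) hp.reverse ht' h4 (by simpa using h2) h6
    have hS1 := hp.2.2.2 t ht
    have hS2 := hp.2.2.2 (ℓ - t') (by omega)
    have f1 : r + 1 ≤ t := by
      by_contra hcon
      exact hS1 (Finset.mem_union_left _ (Hs_mono (by omega) _ e1))
    have f2 : r ≤ t' := by
      by_contra hcon
      exact hS2 (Finset.mem_union_right _ (Hs_mono (by omega) _ e2))
    have f3 : ℓ - t' = t := by omega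
    have f4 : t = r + 1 := by omega
    have f5 : t' = r := by omega
    refine ⟨p t, ?_, fun hx => hS1 (Finset.mem_union_left _ hx), ?_⟩
    · rw [f4] at e1 ⊢
      exact e1
    · rw [f3, f5] at e2
      exact e2

theorem card_bad {d k r D : ℕ} (h : FaultTolerant G d k) (hk : 1 ≤ k) (hr : 1 ≤ r)
    (hd : d ≤ 2 * r + 1) (hn : k + 1 ≤ Fintype.card V) (hD1 : 1 ≤ D)
    (hD : ∀ x ∉ H, G.degree x ≤ D) :
    (Hᶜ.filter (fun v => (Hs G H r v).card + (Hs G H (r - 1) v).card < k)).card ≤
      (d * D ^ d + D ^ (r + 1) + 1) ^ k := by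
  refine setpair (fun v => (Hs G H (r - 1) v).card)
    (fun u => (Hs G H (r + 1) u \ Hs G H r u) ∪ Ball G H d u) (d * D ^ d + D ^ (r + 1)) k
    (fun u => insert u (Hs G H r u)) _ ?_ ?_ ?_ ?_
  · intro u hu
    rw [Finset.mem_filter, Finset.mem_compl] at hu
    refine (Finset.card_insert_le _ _).trans ?_
    omega
  · intro u hu
    rw [Finset.mem_filter, Finset.mem_compl] at hu
    refine (Finset.card_union_le _ _).trans ?_
    have h1 : (Hs G H (r + 1) u \ Hs G H r u).card ≤ D ^ (r + 1) :=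
      (Finset.card_le_card Finset.sdiff_subset).trans (card_Hs_le hD1 hD _ hu.1)
    have h2 := card_Ball_le (G := G) hD1 hD d u
    omega
  · intro u hu
    rw [Finset.mem_filter, Finset.mem_compl] at hu
    rw [Finset.disjoint_left]
    intro x hx hx2
    rw [Finset.mem_insert] at hx
    rw [Finset.mem_union, Finset.mem_sdiff] at hx2
    rcases hx with rfl | hx
    · rcases hx2 with hx2 | hx2
      · exact hu.1 (Hs_sub _ _ hx2.1)
      · unfold Ball at hx2
        simp at hx2
    · rcases hx2 with hx2 | hx2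
      · exact hx2.2 hx
      · unfold Ball at hx2
        rw [Finset.mem_erase, Finset.mem_sdiff] at hx2
        exact hx2.2.2 (Hs_sub _ _ hx)
  · intro u hu v hv huv hf
    rw [Finset.mem_filter, Finset.mem_compl] at hu hv
    rw [Finset.not_disjoint_iff]
    have hf' : (Hs G H (r - 1) v).card ≤ (Hs G H (r - 1) u).card := hf
    rcases far_common h hk hr hd hn hu.1 hv.1 (Ne.symm huv) (by omega) with h1 | ⟨x, h1, h2, h3⟩
    · exact ⟨v, Finset.mem_insert_self _ _, Finset.mem_union_right _ h1⟩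
    · exact ⟨x, Finset.mem_insert_of_mem h3, Finset.mem_union_left _ (Finset.mem_sdiff.mpr ⟨h1, h2⟩)⟩

end Pool.Agent.FTE
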