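import Pool.Agent.FTE.ODefs

/-!
# Lower bound for odd diameters: one step

Double counting of the triples `(v, u, h)`: `v ∉ H`, `h ∈ C v ∩ Hx (s + 1) v`; by `Hx_parent` there is `u ~ v`,
`u ∉ H`, `h ∈ Hx s u`, and `h ∈ C u` by the closure hypothesis.  For `h ∈ Hx s u` at least one neighbour of `u` is
not counted: `s = 0`: `h` itself; `s = s' + 1`: a neighbour `w ∉ H` with `h ∈ Hx s' w`.
-/

set_option autoImplicit false

namespace Pool.Agent.FTE

open Pool.Agent.Helper68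

variable {V : Type} [Fintype V] [DecidableEq V] {G : SimpleGraph V} [DecidableRel G.Adj]
  {H : Finset V}

/-- the number of selected pairs at distance `s + 1` -/
def Ms (G : SimpleGraph V) [DecidableRel G.Adj] (H : Finset V) (C : V → Finset V) (s : ℕ) : ℕ :=
  ∑ v ∈ Hᶜ, (C v ∩ Hx G H s v).card

theorem Hx_zero_sub (v : V) : Hx G H 0 v ⊆ G.neighborFinset v ∩ H := by
  intro x hx
  unfold Hx at hx
  rw [Finset.mem_sdiff, Hs] at hx
  rcases Finset.mem_union.mp hx.1 with h | h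
  · exact h
  · rw [Finset.mem_biUnion] at h
    obtain ⟨u, _, hu⟩ := h
    simp [Hs] at hu

theorem Ms_zero_le (C : V → Finset V) : Ms G H C 0 ≤ ∑ v ∈ Hᶜ, (G.neighborFinset v ∩ H).card := by
  unfold Ms
  refine Finset.sum_le_sum fun v _ => Finset.card_le_card ?_
  exact Finset.inter_subset_right.trans (Hx_zero_sub v)

/-- one neighbour of `u` does not see `h` at distance `s + 2` -/
theorem exists_free {s : ℕ} {u h : V} (hh : h ∈ Hx G H s u) :
    ∃ w ∈ G.neighborFinset u, ¬ (w ∉ H ∧ h ∈ Hx G H (s + 1) w) := by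
  rcases s with _ | s
  · have h1 := Hx_zero_sub u hh
    rw [Finset.mem_inter] at h1
    exact ⟨h, h1.1, fun h2 => h2.1 h1.2⟩
  · obtain ⟨w, hw1, hw2, hw3⟩ := Hx_parent hh
    refine ⟨w, ?_, fun h2 => ?_⟩
    · rw [SimpleGraph.mem_neighborFinset]
      exact hw1.symm
    · have h3 := h2.2
      unfold Hx at h3 hw3
      rw [Finset.mem_sdiff] at h3 hw3
      exact h3.2 (Hs_mono (by omega) w hw3.1)

theorem count_le {C : V → Finset V} {s : ℕ} {u h : V} (hh : h ∈ Hx G H s u) :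
    (Hᶜ.filter (fun v => G.Adj u v ∧ h ∈ C v ∩ Hx G H (s + 1) v)).card + 1 ≤ G.degree u := by
  obtain ⟨w, hw1, hw2⟩ := exists_free hh
  have h1 : Hᶜ.filter (fun v => G.Adj u v ∧ h ∈ C v ∩ Hx G H (s + 1) v) ⊆
      (G.neighborFinset u).erase w := by
    intro v hv
    rw [Finset.mem_filter, Finset.mem_compl, Finset.mem_inter] at hv
    rw [Finset.mem_erase, SimpleGraph.mem_neighborFinset]
    refine ⟨fun h2 => hw2 ?_, hv.2.1⟩
    rw [← h2]
    exact ⟨hv.1, hv.2.2.2⟩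
  have h2 := Finset.card_le_card h1
  rw [Finset.card_erase_of_mem hw1, SimpleGraph.card_neighborFinset_eq_degree] at h2
  have h3 : 0 < G.degree u := by
    rw [← SimpleGraph.card_neighborFinset_eq_degree]
    exact Finset.card_pos.mpr ⟨w, hw1⟩
  omega

theorem Ms_succ_le {C : V → Finset V} {r s : ℕ}
    (hcl : ∀ (u v h : V) (s : ℕ), s + 2 ≤ r → G.Adj u v → u ∉ H → h ∈ C v → h ∈ Hx G H (s + 1) v →
      h ∈ Hx G H s u → h ∈ C u) (hs : s + 2 ≤ r) :
    Ms G H C (s + 1) + Ms G H C s ≤ ∑ u ∈ Hᶜ, (C u ∩ Hx G H s u).card * G.degree u := by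
  have h1 : ∀ v ∈ Hᶜ, (C v ∩ Hx G H (s + 1) v).card ≤
      ∑ u ∈ Hᶜ, ((C u ∩ Hx G H s u).filter
        (fun h => G.Adj u v ∧ h ∈ C v ∩ Hx G H (s + 1) v)).card := by
    intro v hv
    refine (Finset.card_le_card ?_).trans Finset.card_biUnion_le
    intro h hh
    have hh' := Finset.mem_inter.mp hh
    obtain ⟨u, hu1, hu2, hu3⟩ := Hx_parent hh'.2
    rw [Finset.mem_biUnion]
    exact ⟨u, Finset.mem_compl.mpr hu2, Finset.mem_filter.mpr
      ⟨Finset.mem_inter.mpr ⟨hcl u v h s hs hu1 hu2 hh'.1 hh'.2 hu3, hu3⟩, hu1, hh⟩⟩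
  have h2 : ∀ u ∈ Hᶜ, (∑ v ∈ Hᶜ, ((C u ∩ Hx G H s u).filter
        (fun h => G.Adj u v ∧ h ∈ C v ∩ Hx G H (s + 1) v)).card) + (C u ∩ Hx G H s u).card ≤
      (C u ∩ Hx G H s u).card * G.degree u := by
    intro u _
    have h3 : (∑ v ∈ Hᶜ, ((C u ∩ Hx G H s u).filter
        (fun h => G.Adj u v ∧ h ∈ C v ∩ Hx G H (s + 1) v)).card) =
        ∑ h ∈ C u ∩ Hx G H s u,
          (Hᶜ.filter (fun v => G.Adj u v ∧ h ∈ C v ∩ Hx G H (s + 1) v)).card := by
      simp_rw [Finset.card_filter]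
      exact Finset.sum_comm
    rw [h3, Finset.card_eq_sum_ones, ← Finset.sum_add_distrib, Finset.sum_mul]
    refine Finset.sum_le_sum fun h hh => ?_
    rw [one_mul]
    exact count_le (Finset.mem_inter.mp hh).2
  have h4 : Ms G H C (s + 1) ≤ ∑ u ∈ Hᶜ, ∑ v ∈ Hᶜ, ((C u ∩ Hx G H s u).filter
        (fun h => G.Adj u v ∧ h ∈ C v ∩ Hx G H (s + 1) v)).card := by
    rw [Finset.sum_comm]
    exact Finset.sum_le_sum h1
  have h5 : Ms G H C s = ∑ u ∈ Hᶜ, (C u ∩ Hx G H s u).card := rfl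
  have h6 := Finset.sum_le_sum h2
  rw [Finset.sum_add_distrib] at h6
  rw [h5]
  omega

end Pool.Agent.FTE
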