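import Pool.Agent.FTE.OSel
import Pool.Agent.FTE.OStep

/-!
# Lower bound for odd diameters: counting
-/

set_option autoImplicit false

namespace Pool.Agent.FTE

open Pool.Agent.Helper68

variable {V : Type} [Fintype V] [DecidableEq V] {G : SimpleGraph V} [DecidableRel G.Adj]
  {H : Finset V}

private theorem card_parts (C : Finset V) (v : V) (t : ℕ) :
    ∑ s ∈ Finset.range t, (C ∩ Hx G H s v).card = (C ∩ Hs G H t v).card := by
  induction t with
  | zero => simp [Hs]
  | succ t ih =>
    rw [Finset.sum_range_succ, ih]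
    have h1 : C ∩ Hs G H (t + 1) v = (C ∩ Hs G H t v) ∪ (C ∩ Hx G H t v) := by
      unfold Hx
      ext x
      have h2 : x ∈ Hs G H t v → x ∈ Hs G H (t + 1) v := fun h => Hs_mono_succ t v h
      simp only [Finset.mem_inter, Finset.mem_union, Finset.mem_sdiff]
      tauto
    have h2 : Disjoint (C ∩ Hs G H t v) (C ∩ Hx G H t v) := by
      unfold Hx
      rw [Finset.disjoint_left]
      intro x hx hx'
      simp only [Finset.mem_inter, Finset.mem_sdiff] at hx hx'
      exact hx'.2.2 hx.2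
    rw [h1, Finset.card_union_of_disjoint h2]

private theorem al_pos (q j : ℕ) : 1 ≤ al q j := by
  cases j with
  | zero => simp [al]
  | succ j => simp only [al]; omega

/-- the recursion -/
private theorem rec_bound {q r W : ℕ} {M X : ℕ → ℕ} (h0 : M 0 ≤ W)
    (h1 : ∀ s, s + 2 ≤ r → M (s + 1) ≤ q * M s + X s) (j : ℕ) (hj : j + 1 ≤ r) :
    (∑ s ∈ Finset.range (j + 1), M s ≤
      q * (∑ s ∈ Finset.range j, M s) + W + ∑ s ∈ Finset.range j, X s) ∧
    M j + 2 * ∑ s ∈ Finset.range j, M s ≤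
      al q j * W + (if j = 0 then 0 else al q (j - 1)) * ∑ s ∈ Finset.range j, X s := by
  induction j with
  | zero => simpa [al] using h0
  | succ j ih =>
    obtain ⟨ih1, ih2⟩ := ih (by omega)
    have h2 := h1 j (by omega)
    have e1 := Finset.sum_range_succ M (j + 1)
    have e2 := Finset.sum_range_succ M j
    have e3 := Finset.sum_range_succ X j
    have key : ∑ s ∈ Finset.range (j + 1 + 1), M s ≤
        q * (∑ s ∈ Finset.range (j + 1), M s) + W + ∑ s ∈ Finset.range (j + 1), X s := by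
      rw [e1, e3]
      have h3 : q * (∑ s ∈ Finset.range (j + 1), M s) =
          q * (∑ s ∈ Finset.range j, M s) + q * M j := by rw [e2]; ring
      rw [h3]
      omega
    refine ⟨key, ?_⟩
    have h4 : M (j + 1) + 2 * ∑ s ∈ Finset.range (j + 1), M s ≤
        q * (M j + 2 * ∑ s ∈ Finset.range j, M s) + 2 * W + X j +
          2 * ∑ s ∈ Finset.range j, X s := by
      have h5 : q * (M j + 2 * ∑ s ∈ Finset.range j, M s) =
          q * M j + 2 * (q * ∑ s ∈ Finset.range j, M s) := by ring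
      rw [h5]
      omega
    have h6 : (if j + 1 = 0 then 0 else al q (j + 1 - 1)) = al q j := by
      rw [if_neg (by omega), Nat.add_sub_cancel]
    rw [h6]
    refine h4.trans ?_
    have h7 : q * (M j + 2 * ∑ s ∈ Finset.range j, M s) ≤ q * (al q j * W +
        (if j = 0 then 0 else al q (j - 1)) * ∑ s ∈ Finset.range j, X s) :=
      Nat.mul_le_mul_left q ih2
    have h8 : al q (j + 1) = q * al q j + 2 := rfl
    rw [h8, e3]
    rcases Nat.eq_zero_or_pos j with hj0 | hj0
    · subst hj0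
      simp only [Finset.range_zero, Finset.sum_empty, mul_zero, add_zero, if_true, zero_add,
        al] at h7 ⊢
      nlinarith
    · obtain ⟨i, rfl⟩ : ∃ i, j = i + 1 := ⟨j - 1, by omega⟩
      have h9 : (if i + 1 = 0 then 0 else al q (i + 1 - 1)) = al q i := by
        rw [if_neg (by omega), Nat.add_sub_cancel]
      rw [h9] at h7
      have h10 : al q (i + 1) = q * al q i + 2 := rfl
      have h11 := al_pos q (i + 1)
      have h12 : X (i + 1) ≤ al q (i + 1) * X (i + 1) := Nat.le_mul_of_pos_left _ h11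
      calc q * (M (i + 1) + 2 * ∑ s ∈ Finset.range (i + 1), M s) + 2 * W + X (i + 1) +
            2 * ∑ s ∈ Finset.range (i + 1), X s
          ≤ q * (al q (i + 1) * W + al q i * ∑ s ∈ Finset.range (i + 1), X s) + 2 * W +
            al q (i + 1) * X (i + 1) + 2 * ∑ s ∈ Finset.range (i + 1), X s := by omega
        _ = (q * al q (i + 1) + 2) * W + ((q * al q i + 2) * ∑ s ∈ Finset.range (i + 1), X s +
            al q (i + 1) * X (i + 1)) := by ring
        _ = (q * al q (i + 1) + 2) * W + al q (i + 1) *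
            (∑ s ∈ Finset.range (i + 1), X s + X (i + 1)) := by rw [← h10]; ring

theorem odd_count {k r b : ℕ} (hk : 2 ≤ k) (hr : 3 ≤ r) (hdeg : ∀ u, k ≤ G.degree u)
    (hb : (Hᶜ.filter (fun v => (Hs G H r v).card + (Hs G H (r - 1) v).card < k)).card ≤ b) :
    Fintype.card V ≤ H.card + b + al (k - 1) (r - 2) * ∑ u ∈ Hᶜ, exc G H k u := by
  obtain ⟨C, hC1, hC2, hC3⟩ := exists_sel (G := G) (H := H) k r
  obtain ⟨q, rfl⟩ : ∃ q, k = q + 1 := ⟨k - 1, by omega⟩
  obtain ⟨p, rfl⟩ : ∃ p, r = p + 3 := ⟨r - 3, by omega⟩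
  set W : ℕ := ∑ v ∈ Hᶜ, (G.neighborFinset v ∩ H).card with hW
  set X : ℕ → ℕ := fun s => ∑ u ∈ Hᶜ, (C u ∩ Hx G H s u).card * (G.degree u - (q + 1)) with hX
  set XX : ℕ := ∑ u ∈ Hᶜ, (G.degree u - (q + 1)) with hXX
  have hexc : ∑ u ∈ Hᶜ, exc G H (q + 1) u = XX + W := by
    unfold exc
    rw [Finset.sum_add_distrib]
  have hM0 : Ms G H C 0 ≤ W := Ms_zero_le C
  have hM1 : ∀ s, s + 2 ≤ p + 3 → Ms G H C (s + 1) ≤ q * Ms G H C s + X s := by
    intro s hs
    have h1 := Ms_succ_le hC3 hs
    have h2 : ∑ u ∈ Hᶜ, (C u ∩ Hx G H s u).card * G.degree u =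
        (q + 1) * Ms G H C s + X s := by
      unfold Ms
      rw [hX]
      simp only
      rw [Finset.mul_sum, ← Finset.sum_add_distrib]
      refine Finset.sum_congr rfl fun u _ => ?_
      have h3 := hdeg u
      obtain ⟨e, he⟩ : ∃ e, G.degree u = q + 1 + e := ⟨G.degree u - (q + 1), by omega⟩
      rw [he, Nat.add_sub_cancel_left]
      ring
    rw [h2] at h1
    have h3 : (q + 1) * Ms G H C s = q * Ms G H C s + Ms G H C s := by ring
    omega
  have hcardC : ∀ v, ∑ s ∈ Finset.range (p + 3), (C v ∩ Hx G H s v).card = (C v).card := by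
    intro v
    rw [card_parts, Finset.inter_eq_left.2 (hC1 v)]
  have hCk : ∀ v, (C v).card ≤ q + 1 := fun v => by rw [hC2]; exact min_le_left _ _
  have hXsum : ∑ s ∈ Finset.range (p + 2), X s ≤ (q + 1) * XX := by
    calc ∑ s ∈ Finset.range (p + 2), X s ≤ ∑ s ∈ Finset.range (p + 3), X s :=
          Finset.sum_le_sum_of_subset (Finset.range_subset_range.2 (by omega))
      _ = ∑ u ∈ Hᶜ, (C u).card * (G.degree u - (q + 1)) := by
          rw [hX]
          simp only
          rw [Finset.sum_comm]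
          refine Finset.sum_congr rfl fun u _ => ?_
          rw [← Finset.sum_mul, hcardC]
      _ ≤ ∑ u ∈ Hᶜ, (q + 1) * (G.degree u - (q + 1)) :=
          Finset.sum_le_sum fun u _ => Nat.mul_le_mul_right _ (hCk u)
      _ = (q + 1) * XX := by rw [← Finset.mul_sum]
  obtain ⟨-, hT⟩ := rec_bound (q := q) (r := p + 3) (W := W) (M := Ms G H C) (X := X) hM0 hM1
    (p + 2) (by omega)
  rw [if_neg (by omega)] at hT
  have e1 : p + 2 - 1 = p + 1 := by omega
  rw [e1] at hT
  have e2 : p + 3 - 2 = p + 1 := by omega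
  have e3 : q + 1 - 1 = q := by omega
  rw [e2, e3]
  -- the bound for `T`
  have hal2 : al q (p + 2) = q * al q (p + 1) + 2 := rfl
  have hal1 : 2 ≤ al q (p + 1) := by
    have : al q (p + 1) = q * al q p + 2 := rfl
    omega
  have hT2 : Ms G H C (p + 2) + 2 * ∑ s ∈ Finset.range (p + 2), Ms G H C s ≤
      (q + 1) * (al q (p + 1) * (XX + W)) := by
    refine hT.trans ?_
    calc al q (p + 2) * W + al q (p + 1) * ∑ s ∈ Finset.range (p + 2), X s
        ≤ ((q + 1) * al q (p + 1)) * W + al q (p + 1) * ((q + 1) * XX) := by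
          refine Nat.add_le_add (Nat.mul_le_mul_right _ ?_) (Nat.mul_le_mul_left _ hXsum)
          rw [hal2]
          have : (q + 1) * al q (p + 1) = q * al q (p + 1) + al q (p + 1) := by ring
          omega
      _ = (q + 1) * (al q (p + 1) * (XX + W)) := by ring
  -- the good vertices
  have hgood : ∀ v, q + 1 ≤ (Hs G H (p + 3) v).card + (Hs G H (p + 3 - 1) v).card →
      q + 1 ≤ ∑ s ∈ Finset.range (p + 3), (C v ∩ Hx G H s v).card +
        ∑ s ∈ Finset.range (p + 2), (C v ∩ Hx G H s v).card := by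
    intro v hv
    rw [hcardC, card_parts]
    rcases Nat.lt_or_ge (Hs G H (p + 3) v).card (q + 1) with h1 | h1
    · have h2 : (C v).card = (Hs G H (p + 3) v).card := by rw [hC2, min_eq_right h1.le]
      have h3 : C v = Hs G H (p + 3) v := Finset.eq_of_subset_of_card_le (hC1 v) h2.ge
      have h4 : C v ∩ Hs G H (p + 2) v = Hs G H (p + 2) v := by
        rw [h3]
        exact Finset.inter_eq_right.2 (Hs_mono (by omega) v)
      rw [h4, h2]
      have e4 : p + 3 - 1 = p + 2 := by omega
      rw [e4] at hv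
      exact hv
    · have h2 : (C v).card = q + 1 := by rw [hC2, min_eq_left h1]
      omega
  have hsumM : ∀ t, ∑ v ∈ Hᶜ, ∑ s ∈ Finset.range t, (C v ∩ Hx G H s v).card =
      ∑ s ∈ Finset.range t, Ms G H C s := by
    intro t
    unfold Ms
    rw [Finset.sum_comm]
  set Bad : Finset V :=
    Hᶜ.filter (fun v => (Hs G H (p + 3) v).card + (Hs G H (p + 3 - 1) v).card < q + 1) with hBad
  have h1 : (q + 1) * (Hᶜ \ Bad).card ≤
      Ms G H C (p + 2) + 2 * ∑ s ∈ Finset.range (p + 2), Ms G H C s := by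
    calc (q + 1) * (Hᶜ \ Bad).card = ∑ _v ∈ Hᶜ \ Bad, (q + 1) := by
          rw [Finset.sum_const, smul_eq_mul, mul_comm]
      _ ≤ ∑ v ∈ Hᶜ \ Bad, (∑ s ∈ Finset.range (p + 3), (C v ∩ Hx G H s v).card +
          ∑ s ∈ Finset.range (p + 2), (C v ∩ Hx G H s v).card) := by
          refine Finset.sum_le_sum fun v hv => hgood v ?_
          rw [hBad, Finset.mem_sdiff, Finset.mem_filter, not_and, not_lt] at hv
          exact hv.2 hv.1
      _ ≤ ∑ v ∈ Hᶜ, (∑ s ∈ Finset.range (p + 3), (C v ∩ Hx G H s v).card +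
          ∑ s ∈ Finset.range (p + 2), (C v ∩ Hx G H s v).card) :=
          Finset.sum_le_sum_of_subset Finset.sdiff_subset
      _ = ∑ s ∈ Finset.range (p + 3), Ms G H C s + ∑ s ∈ Finset.range (p + 2), Ms G H C s := by
          rw [Finset.sum_add_distrib, hsumM, hsumM]
      _ = _ := by
          rw [Finset.sum_range_succ]
          ring
  have h2 : (Hᶜ \ Bad).card ≤ al q (p + 1) * (XX + W) :=
    Nat.le_of_mul_le_mul_left (h1.trans hT2) (by omega)
  have h3 : Hᶜ.card ≤ (Hᶜ \ Bad).card + Bad.card := by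
    have := Finset.card_le_card_sdiff_add_card (s := Hᶜ) (t := Bad)
    omega
  have h4 : H.card + Hᶜ.card = Fintype.card V := Finset.card_add_card_compl H
  rw [hexc]
  omega

end Pool.Agent.FTE
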