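import Pool.Agent.FTE.LDefs

/-!
# Lower bound for odd diameters: definitions
-/

set_option autoImplicit false

namespace Pool.Agent.FTE

open Pool.Agent.Helper68

/-- the coefficients `1, q + 2, q ^ 2 + 2 q + 2, …` -/
def al (q : ℕ) : ℕ → ℕ
  | 0 => 1
  | j + 1 => q * al q j + 2

variable {V : Type} [Fintype V] [DecidableEq V] (G : SimpleGraph V) [DecidableRel G.Adj]
  (H : Finset V)

/-- the elements of `H` at distance at most `t` from `v`, along vertices outside of `H` -/
def Hs : ℕ → V → Finset V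
  | 0, _ => ∅
  | t + 1, v => (G.neighborFinset v ∩ H) ∪ (G.neighborFinset v \ H).biUnion (Hs t)

/-- the elements of `H` at distance exactly `t + 1` from `v` -/
def Hx (t : ℕ) (v : V) : Finset V := Hs G H (t + 1) v \ Hs G H t v

variable {G H}

theorem Hs_step {t : ℕ} {u v : V} (h : G.Adj u v) (hu : u ∉ H) : Hs G H t u ⊆ Hs G H (t + 1) v := by
  intro x hx
  rw [Hs, Finset.mem_union, Finset.mem_biUnion]
  exact Or.inr ⟨u, by simp [h.symm, hu], hx⟩

theorem Hs_sub (t : ℕ) (v : V) : Hs G H t v ⊆ H := by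
  induction t generalizing v with
  | zero => simp [Hs]
  | succ t ih =>
    rw [Hs]
    refine Finset.union_subset Finset.inter_subset_right ?_
    rw [Finset.biUnion_subset]
    exact fun u _ => ih u

theorem Hs_mono_succ (t : ℕ) (v : V) : Hs G H t v ⊆ Hs G H (t + 1) v := by
  induction t generalizing v with
  | zero => simp [Hs]
  | succ t ih =>
    intro x hx
    rw [Hs, Finset.mem_union, Finset.mem_biUnion] at hx
    rw [Hs, Finset.mem_union, Finset.mem_biUnion]
    rcases hx with hx | ⟨u, hu, hx⟩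
    · exact Or.inl hx
    · exact Or.inr ⟨u, hu, ih u hx⟩

theorem Hs_mono {s t : ℕ} (h : s ≤ t) (v : V) : Hs G H s v ⊆ Hs G H t v := by
  induction t with
  | zero => rw [Nat.le_zero.mp h]
  | succ t ih =>
    rcases Nat.lt_or_ge s (t + 1) with h1 | h1
    · exact (ih (by omega)).trans (Hs_mono_succ t v)
    · rw [show s = t + 1 by omega]

/-- an element at distance `t + 2` has a neighbour outside of `H` at distance `t + 1` -/
theorem Hx_parent {t : ℕ} {v h : V} (hh : h ∈ Hx G H (t + 1) v) :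
    ∃ u, G.Adj u v ∧ u ∉ H ∧ h ∈ Hx G H t u := by
  unfold Hx at hh
  rw [Finset.mem_sdiff] at hh
  obtain ⟨h1, h2⟩ := hh
  rw [Hs, Finset.mem_union, Finset.mem_biUnion] at h1
  rcases h1 with h1 | ⟨u, hu, h1⟩
  · exfalso
    apply h2
    rw [Hs, Finset.mem_union]
    exact Or.inl h1
  · rw [Finset.mem_sdiff, SimpleGraph.mem_neighborFinset] at hu
    refine ⟨u, hu.1.symm, hu.2, ?_⟩
    unfold Hx
    rw [Finset.mem_sdiff]
    exact ⟨h1, fun h3 => h2 (Hs_step hu.1.symm hu.2 h3)⟩

end Pool.Agent.FTE
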