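import Pool.Agent.FTE.OCount
import Pool.Agent.FTE.OBad
import Pool.Agent.FTE.LB
import Pool.Agent.FTA.Limit

/-!
# Lower bound for odd diameters: the limit
-/

set_option autoImplicit false

namespace Pool.Agent.FTE

open Pool.Agent.Helper68 Filter Topology

theorem al_pos (q j : ℕ) : 0 < al q j := by
  cases j with
  | zero => simp [al]
  | succ j => simp [al]

theorem fhat_lower_odd {n d k r D : ℕ} (hk : 2 ≤ k) (hr : 3 ≤ r) (hd2 : 2 ≤ d)
    (hd : d ≤ 2 * r + 1) (hn : k + 1 ≤ n) (hD1 : 1 ≤ D) :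
    ∃ a : ℕ, a * D ≤ 2 * fhat n d k ∧
      n + al (k - 1) (r - 2) * (k * n) ≤ a + (d * D ^ d + D ^ (r + 1) + 1) ^ k +
        al (k - 1) (r - 2) * (2 * fhat n d k + k * a) := by
  classical
  obtain ⟨G, h1, h2⟩ := exists_opt (n := n) (d := d) (k := k) (by omega)
  have h3 : G.edgeFinset.card = fhat n d k := by
    rw [← h2, ← SimpleGraph.coe_edgeFinset, Set.ncard_coe_finset]
  have hcard : k + 1 ≤ Fintype.card (Fin n) := by simpa using hn
  have hdeg : ∀ u, k ≤ G.degree u := fun u => h1.le_degree (by omega) hcard u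
  have hD : ∀ x ∉ hubs G D, G.degree x ≤ D := fun x hx => degree_le_of_notMem_hubs hx
  have h4 := card_bad (H := hubs G D) (D := D) h1 (by omega) (by omega : 1 ≤ r) hd hcard hD1 hD
  have h6 := odd_count (H := hubs G D) hk hr hdeg h4
  have h7 := exc_sum (H := hubs G D) hdeg
  have h8 := card_hubs_mul_le (G := G) D
  rw [h3] at h7 h8
  rw [Fintype.card_fin] at h6 h7
  refine ⟨(hubs G D).card, h8, ?_⟩
  have h9 : al (k - 1) (r - 2) * (∑ u ∈ (hubs G D)ᶜ, exc G (hubs G D) k u + k * n) ≤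
      al (k - 1) (r - 2) * (2 * fhat n d k + k * (hubs G D).card) := Nat.mul_le_mul_left _ h7
  rw [Nat.mul_add] at h9
  omega

theorem lower_odd {d k r : ℕ} (hk : 2 ≤ k) (hr : 3 ≤ r) (hd2 : 2 ≤ d) (hd : d ≤ 2 * r + 1) {ε : ℝ}
    (hε : 0 < ε) :
    ∀ᶠ n : ℕ in atTop, 1 / (2 * (al (k - 1) (r - 2) : ℝ)) - ε ≤ phihat n d k / n := by
  obtain ⟨B, hB⟩ : ∃ B : ℕ, B = al (k - 1) (r - 2) := ⟨_, rfl⟩
  have hB0 : 0 < B := hB ▸ al_pos _ _
  rw [← hB]
  have hM : (0 : ℝ) < B := by exact_mod_cast hB0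
  have hk0 : (0 : ℝ) < k := by
    have : 0 < k := by omega
    exact_mod_cast this
  obtain ⟨D, hD⟩ := exists_nat_gt ((1 + B * k) * (2 * k) / (2 * B) / (ε / 2) + 1)
  have hD1 : (1 : ℝ) < D := by
    have : 0 ≤ (1 + B * k) * (2 * (k : ℝ)) / (2 * B) / (ε / 2) := by positivity
    linarith
  have hD0 : (0 : ℝ) < D := by linarith
  have hD2 : (1 + B * k) * (2 * k) ≤ (ε / 2) * D * (2 * (B : ℝ)) := by
    have h1 : (1 + B * k) * (2 * (k : ℝ)) / (2 * B) / (ε / 2) < D := by linarith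
    rw [div_lt_iff₀ (by positivity), div_lt_iff₀ (by positivity)] at h1
    nlinarith
  have hev : ∀ᶠ n : ℕ in atTop,
      (((d * D ^ d + D ^ (r + 1) + 1) ^ k : ℕ) : ℝ) / (2 * B) / (ε / 2) < (n : ℝ) :=
    tendsto_natCast_atTop_atTop.eventually_gt_atTop _
  filter_upwards [hev, eventually_ge_atTop (k + 1), eventually_ge_atTop (2 * k)] with n h1 h2 h2'
  obtain ⟨a, h3, h4⟩ := fhat_lower_odd (D := D) hk hr hd2 hd h2 (by exact_mod_cast hD1.le)
  rw [← hB] at h4
  have hn : (0 : ℝ) < n := by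
    have : 0 < n := by omega
    exact_mod_cast this
  have h5 : fhat n d k ≤ k * n := Pool.Agent.FTA.fhat_le_mul (by omega) hd2 h2'
  have h6 : (a : ℝ) * D ≤ 2 * (k * n) := by
    have : a * D ≤ 2 * (k * n) := by omega
    exact_mod_cast this
  generalize (d * D ^ d + D ^ (r + 1) + 1) ^ k = b at *
  have h7 : (n : ℝ) + B * (k * n) ≤ a + b + B * (2 * fhat n d k + k * a) := by exact_mod_cast h4
  rw [div_lt_iff₀ (by positivity), div_lt_iff₀ (by positivity)] at h1
  have h8 : (1 + B * k) * (a : ℝ) ≤ ε / 2 * (2 * B) * n := by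
    have h9 : (1 + B * k) * (a : ℝ) * D ≤ (1 + B * k) * (2 * (k * n)) := by
      have : (0 : ℝ) ≤ 1 + B * k := by positivity
      nlinarith [mul_le_mul_of_nonneg_left h6 this]
    have h10 : (1 + B * k) * (2 * (k * (n : ℝ))) ≤ (ε / 2) * D * (2 * (B : ℝ)) * n := by
      have := mul_le_mul_of_nonneg_right hD2 hn.le
      linarith
    have h11 : (1 + B * k) * (a : ℝ) * D ≤ ε / 2 * (2 * B) * n * D := by linarith
    exact le_of_mul_le_mul_right h11 hD0
  rw [sub_le_iff_le_add, div_le_iff₀ (by positivity)]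
  have h12 : 2 * phihat n d k = 2 * fhat n d k - k * n := by
    unfold phihat; ring
  have h13 : (n : ℝ) ≤ B * (2 * phihat n d k) + ε * (2 * B) * n := by
    rw [h12]
    nlinarith
  have h14 : (phihat n d k / n + ε) * (2 * B) =
      (B * (2 * phihat n d k) + ε * (2 * B) * n) / n := by
    field_simp
  rw [h14, le_div_iff₀ hn]
  linarith

end Pool.Agent.FTE
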