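import Pool.Agent.FTE.ODefs

/-!
# Lower bound for odd diameters: the nearest hubs

PROOF. `dist v h` = the least `t` with `h ∈ Hs t v`, `key v h = dist v h * |V| + rank h` (injective in `h`). `C v` = the `min k _`
smallest elements of `Hs r v`. CLOSURE: `u ~ v`, `u ∉ H`, `h ∈ C v`, `dist v h = s + 2`, `dist u h = s + 1`.
If `h ∉ C u` then `|C u| = k` and all `y ∈ C u` have `key u y < key u h`. For such `y`: `dist v y ≤ dist u y + 1 ≤ s + 2 ≤ r`
(`Hs_step`), and if `dist v y = s + 2` then `dist u y = s + 1`, so `rank y < rank h`: so `key v y < key v h`, `y ∈ C v`.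
So `C u ∪ {h} ⊆ C v`, `|C v| ≥ k + 1`, contradiction.
-/

set_option autoImplicit false

namespace Pool.Agent.FTE

open Pool.Agent.Helper68

/-- the `k` smallest elements of a finite set -/
theorem smallest {W : Type} [DecidableEq W] (T : Finset W) (key : W → ℕ) (k : ℕ) :
    ∃ C : Finset W, C ⊆ T ∧ C.card = min k T.card ∧
      ∀ x ∈ C, ∀ y ∈ T, key y < key x → y ∈ C := by
  induction k with
  | zero => exact ⟨∅, by simp, by simp, by simp⟩
  | succ k ih =>
    obtain ⟨C, h1, h2, h3⟩ := ih
    by_cases hT : C = T
    · refine ⟨C, h1, ?_, h3⟩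
      rw [hT] at h2 ⊢
      omega
    · have hne : (T \ C).Nonempty := by
        rw [Finset.sdiff_nonempty]
        intro h4
        exact hT (Finset.Subset.antisymm h1 h4)
      obtain ⟨m, hm, hmin⟩ := Finset.exists_min_image (T \ C) key hne
      rw [Finset.mem_sdiff] at hm
      refine ⟨insert m C, ?_, ?_, ?_⟩
      · intro x hx
        rw [Finset.mem_insert] at hx
        rcases hx with rfl | hx
        · exact hm.1
        · exact h1 hx
      · have h4 : C.card < T.card := Finset.card_lt_card
          ⟨h1, fun h5 => hT (Finset.Subset.antisymm h1 h5)⟩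
        rw [Finset.card_insert_of_notMem hm.2]
        omega
      · intro x hx y hy hxy
        rw [Finset.mem_insert] at hx ⊢
        rcases hx with rfl | hx
        · right
          by_contra hyC
          have := hmin y (Finset.mem_sdiff.2 ⟨hy, hyC⟩)
          omega
        · exact Or.inr (h3 x hx y hy hxy)

variable {V : Type} [Fintype V] [DecidableEq V] {G : SimpleGraph V} [DecidableRel G.Adj]
  {H : Finset V}

theorem exists_sel (k r : ℕ) : ∃ C : V → Finset V, (∀ v, C v ⊆ Hs G H r v) ∧
    (∀ v, (C v).card = min k (Hs G H r v).card) ∧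
    ∀ (u v h : V) (s : ℕ), s + 2 ≤ r → G.Adj u v → u ∉ H → h ∈ C v → h ∈ Hx G H (s + 1) v →
      h ∈ Hx G H s u → h ∈ C u := by
  classical
  obtain ⟨N, hN⟩ : ∃ N, N = Fintype.card V := ⟨_, rfl⟩
  let rank : V → ℕ := fun v => (Fintype.equivFin V v).val
  have hrank : ∀ v, rank v < N := fun v => by rw [hN]; exact (Fintype.equivFin V v).isLt
  have hinj : ∀ v w, rank v = rank w → v = w := fun v w h =>
    (Fintype.equivFin V).injective (Fin.ext h)
  let dist : V → V → ℕ := fun v h => sInf {t | h ∈ Hs G H t v}
  let key : V → V → ℕ := fun v h => dist v h * N + rank h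
  -- the distance
  have hd1 : ∀ {v h : V} {t : ℕ}, h ∈ Hs G H t v → dist v h ≤ t ∧ h ∈ Hs G H (dist v h) v := by
    intro v h t ht
    exact ⟨Nat.sInf_le ht, Nat.sInf_mem (s := {t | h ∈ Hs G H t v}) ⟨t, ht⟩⟩
  have hd2 : ∀ {v h : V} {t : ℕ}, h ∈ Hx G H t v → dist v h = t + 1 := by
    intro v h t ht
    unfold Hx at ht
    rw [Finset.mem_sdiff] at ht
    obtain ⟨h1, h2⟩ := hd1 ht.1
    refine le_antisymm h1 ?_
    by_contra hcon
    exact ht.2 (Hs_mono (by omega) v h2)
  have hkinj : ∀ v x y, key v x = key v y → x = y := by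
    intro v x y h
    apply hinj
    have h1 := hrank x
    have h2 := hrank y
    have h3 : dist v x * N + rank x = dist v y * N + rank y := h
    rcases lt_trichotomy (dist v x) (dist v y) with h4 | h4 | h4
    · nlinarith [Nat.mul_le_mul_right N (show dist v x + 1 ≤ dist v y from h4)]
    · rw [h4] at h3; omega
    · nlinarith [Nat.mul_le_mul_right N (show dist v y + 1 ≤ dist v x from h4)]
  choose C hC1 hC2 hC3 using fun v => smallest (Hs G H r v) (key v) k
  refine ⟨C, hC1, hC2, ?_⟩
  intro u v h s hs huv huH hhv hxv hxu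
  have dv := hd2 hxv
  have du := hd2 hxu
  by_contra hcon
  have hhu : h ∈ Hs G H r u := by
    unfold Hx at hxu
    rw [Finset.mem_sdiff] at hxu
    exact Hs_mono (by omega) u hxu.1
  have hcard : (C u).card = k := by
    have h1 : (C u).card < (Hs G H r u).card := Finset.card_lt_card
      ⟨hC1 u, fun h5 => hcon (h5 hhu)⟩
    have h2 := hC2 u
    omega
  have hlt : ∀ y ∈ C u, key u y < key u h := by
    intro y hy
    rcases lt_trichotomy (key u y) (key u h) with h1 | h1 | h1
    · exact h1
    · exact absurd (hkinj u y h h1 ▸ hy) hcon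
    · exact absurd (hC3 u y hy h hhu h1) hcon
  have hsub : insert h (C u) ⊆ C v := by
    intro y hy
    rw [Finset.mem_insert] at hy
    rcases hy with rfl | hy
    · exact hhv
    · have h1 : dist u y * N + rank y < dist u h * N + rank h := hlt y hy
      have h2 := hrank h
      have h3 := hrank y
      have h4 : dist u y ≤ s + 1 := by
        by_contra h5
        have := Nat.mul_le_mul_right N (show s + 1 + 1 ≤ dist u y by omega)
        rw [du] at h1
        nlinarith
      obtain ⟨-, h5⟩ := hd1 (hC1 u hy)
      have h6 := hd1 (Hs_step huv huH h5)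
      have h7 : y ∈ Hs G H r v := Hs_mono (by omega) v h6.2
      refine hC3 v h hhv y h7 ?_
      show dist v y * N + rank y < dist v h * N + rank h
      rw [dv]
      rcases Nat.lt_or_ge (dist v y) (s + 2) with h8 | h8
      · have := Nat.mul_le_mul_right N (show dist v y + 1 ≤ s + 1 + 1 by omega)
        nlinarith
      · have h9 : dist v y = s + 1 + 1 := by omega
        have h10 : dist u y = s + 1 := by omega
        rw [h10, du] at h1
        rw [h9]
        omega
  have h1 := Finset.card_le_card hsub
  rw [Finset.card_insert_of_notMem hcon, hcard, hC2 v] at h1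
  omega

end Pool.Agent.FTE
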