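import Pool.Agent.FTE.LMain
import Pool.Agent.FTE.OLim
import Pool.Agent.FTH.Upper

/-!
# All diameters `≥ 6`: bounds for the lower and the upper limit
-/

set_option autoImplicit false

namespace Pool.Agent.FTE

open Pool.Agent.Helper68 Filter Topology

/-- `q ^ (r - 2)` and the denominator of the lower bound -/
theorem cast_Mr {r k : ℕ} (hk : 1 ≤ k) :
    (Mr r k : ℝ) =
      2 * ∑ a ∈ Finset.range (r - 2), ((k : ℝ) - 1) ^ a + k * ((k : ℝ) - 1) ^ (r - 3) := by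
  unfold Mr
  push_cast
  rw [Nat.cast_sub hk]
  push_cast
  rfl

theorem upper_ev {d k : ℕ} (hd : 6 ≤ d) (hk : 3 ≤ k) {ε : ℝ} (hε : 0 < ε) :
    ∀ᶠ n : ℕ in atTop, phihat n d k / n ≤ 1 / ((k : ℝ) - 1) ^ (d / 2 - 2) + ε := by
  have h1 := Pool.Agent.FTD.limsup_le (d := d) (k := k) hk hd
  have h2 := eventually_lt_of_limsup_lt (lt_of_le_of_lt h1 (lt_add_of_pos_right _ hε))
    (Pool.Agent.FTA.bdd_above (by omega) (by omega))
  exact h2.mono (fun n hn => hn.le)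

theorem al_eq (q j : ℕ) : al q j = q ^ j + 2 * ∑ a ∈ Finset.range j, q ^ a := by
  induction j with
  | zero => simp [al]
  | succ j ih =>
    rw [al, ih, Finset.sum_range_succ']
    simp only [pow_succ, pow_zero]
    rw [← Finset.sum_mul]
    ring

theorem cast_al {k : ℕ} (hk : 1 ≤ k) (j : ℕ) :
    (al (k - 1) j : ℝ) = ((k : ℝ) - 1) ^ j + 2 * ∑ a ∈ Finset.range j, ((k : ℝ) - 1) ^ a := by
  rw [al_eq]
  push_cast
  rw [Nat.cast_sub hk]
  push_cast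
  rfl

theorem lower_odd_ev {d k : ℕ} (hd : 6 ≤ d) (hk : 3 ≤ k) {ε : ℝ} (hε : 0 < ε) :
    ∀ᶠ n : ℕ in atTop,
      1 / (2 * (((k : ℝ) - 1) ^ (d / 2 - 2) +
        2 * ∑ a ∈ Finset.range (d / 2 - 2), ((k : ℝ) - 1) ^ a)) - ε ≤ phihat n d k / n := by
  have h1 := lower_odd (d := d) (k := k) (r := d / 2) (by omega) (by omega)
    (by omega) (by omega) hε
  rw [cast_al (by omega)] at h1
  exact h1

theorem lower_even_ev {d k : ℕ} (hd : 6 ≤ d) (hk : 3 ≤ k) (he : Even d) {ε : ℝ} (hε : 0 < ε) :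
    ∀ᶠ n : ℕ in atTop,
      1 / (2 * ∑ a ∈ Finset.range (d / 2 - 2), ((k : ℝ) - 1) ^ a +
        k * ((k : ℝ) - 1) ^ (d / 2 - 3)) - ε ≤ phihat n d k / n := by
  obtain ⟨r, rfl⟩ := he
  have h1 := lower (k := k) (r := r) (by omega) (by omega) hε
  rw [cast_Mr (by omega)] at h1
  have h2 : (r + r) / 2 = r := by omega
  rw [h2, ← two_mul]
  exact h1

theorem geom_le (q : ℝ) (s : ℕ) :
    (q - 1) * ∑ a ∈ Finset.range s, q ^ a ≤ q ^ s := by
  rw [mul_geom_sum]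
  linarith

/-- the relative form of the even lower bound -/
theorem rel_even {k : ℝ} (hk : 2 < k) {r : ℕ} (hr : 3 ≤ r) :
    (k - 2) / (k + 1) ≤ (k - 1) ^ (r - 2) *
      (1 / (2 * ∑ a ∈ Finset.range (r - 2), (k - 1) ^ a + k * (k - 1) ^ (r - 3))) := by
  obtain ⟨s, rfl⟩ : ∃ s, r = s + 3 := ⟨r - 3, by omega⟩
  rw [show s + 3 - 2 = s + 1 by omega, show s + 3 - 3 = s by omega]
  have hq : (1 : ℝ) < k - 1 := by linarith
  have h1 := geom_le (k - 1) (s + 1)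
  have h2 : (0 : ℝ) ≤ ∑ a ∈ Finset.range (s + 1), (k - 1) ^ a :=
    Finset.sum_nonneg fun _ _ => by positivity
  have h3 : (0 : ℝ) < (k - 1) ^ s := by positivity
  generalize ∑ a ∈ Finset.range (s + 1), (k - 1) ^ a = A at *
  rw [pow_succ] at h1 ⊢
  generalize (k - 1) ^ s = P at *
  rw [mul_one_div, div_le_div_iff₀ (by linarith) (by positivity)]
  nlinarith

/-- the relative form of the lower bound for all diameters -/
theorem rel_odd {k : ℝ} (hk : 2 < k) (s : ℕ) :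
    (k - 2) / (2 * k) ≤ (k - 1) ^ s *
      (1 / (2 * ((k - 1) ^ s + 2 * ∑ a ∈ Finset.range s, (k - 1) ^ a))) := by
  have hq : (1 : ℝ) < k - 1 := by linarith
  have h1 := geom_le (k - 1) s
  have h2 : (0 : ℝ) ≤ ∑ a ∈ Finset.range s, (k - 1) ^ a :=
    Finset.sum_nonneg fun _ _ => by positivity
  have h3 : (0 : ℝ) < (k - 1) ^ s := by positivity
  generalize ∑ a ∈ Finset.range s, (k - 1) ^ a = A at *
  generalize (k - 1) ^ s = P at *
  rw [mul_one_div, div_le_div_iff₀ (by linarith) (by positivity)]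
  nlinarith

theorem scale {x y ε Q : ℝ} (hQ : 0 < Q) (h : x - ε / Q ≤ y) : Q * x - ε ≤ Q * y := by
  have h1 := mul_le_mul_of_nonneg_left h hQ.le
  rw [mul_sub, mul_div_cancel₀ _ hQ.ne'] at h1
  exact h1

theorem upper_odd_ev {d k : ℕ} (hd : 7 ≤ d) (hdo : Odd d) (hk : 4 ≤ k) {ε : ℝ} (hε : 0 < ε) :
    ∀ᶠ n : ℕ in atTop, phihat n d k / n ≤
      ((((k + 1) / 2 : ℕ) : ℝ) / ((k : ℝ) - 2)) / ((k : ℝ) - 1) ^ (d / 2 - 2) + ε := by
  have h1 := Pool.Agent.FTH.limsup_odd (d := d) (k := k) hk hd hdo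
  have h2 := eventually_lt_of_limsup_lt (lt_of_le_of_lt h1 (lt_add_of_pos_right _ hε))
    (Pool.Agent.FTA.bdd_above (by omega) (by omega))
  exact h2.mono (fun n hn => hn.le)

theorem rel_ev {d k : ℕ} (hd : 6 ≤ d) (hk : 3 ≤ k) {ε : ℝ} (hε : 0 < ε) :
    ∀ᶠ n : ℕ in atTop,
      ((k : ℝ) - 2) / (2 * k) - ε ≤ (k - 1) ^ (d / 2 - 2) * (phihat n d k / n) ∧
      ((k : ℝ) - 1) ^ (d / 2 - 2) * (phihat n d k / n) ≤ 1 + ε ∧
      (Even d → ((k : ℝ) - 2) / (k + 1) - ε ≤ (k - 1) ^ (d / 2 - 2) * (phihat n d k / n)) ∧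
      (Odd d → ((k : ℝ) - 1) ^ (d / 2 - 2) * (phihat n d k / n) ≤
        (((k + 1) / 2 : ℕ) : ℝ) / (k - 2) + ε) := by
  have hk3 : (3 : ℝ) ≤ k := by exact_mod_cast hk
  have hQ : (0 : ℝ) < ((k : ℝ) - 1) ^ (d / 2 - 2) := by
    have : (0 : ℝ) < (k : ℝ) - 1 := by linarith
    positivity
  have h1 := lower_odd_ev hd hk (div_pos hε hQ)
  have h2 := upper_ev hd hk (div_pos hε hQ)
  have h3 : ∀ᶠ n : ℕ in atTop, (Even d →
      1 / (2 * ∑ a ∈ Finset.range (d / 2 - 2), ((k : ℝ) - 1) ^ a +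
        k * ((k : ℝ) - 1) ^ (d / 2 - 3)) - ε / ((k : ℝ) - 1) ^ (d / 2 - 2) ≤
          phihat n d k / n) := by
    by_cases he : Even d
    · exact (lower_even_ev hd hk he (div_pos hε hQ)).mono (fun n hn _ => hn)
    · exact Eventually.of_forall (fun n h => absurd h he)
  have h3' : ∀ᶠ n : ℕ in atTop, (Odd d → 4 ≤ k → phihat n d k / n ≤
      ((((k + 1) / 2 : ℕ) : ℝ) / ((k : ℝ) - 2)) / ((k : ℝ) - 1) ^ (d / 2 - 2) +
        ε / ((k : ℝ) - 1) ^ (d / 2 - 2)) := by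
    by_cases he : Odd d ∧ 4 ≤ k
    · have hd7 : 7 ≤ d := by
        obtain ⟨s, hs⟩ := he.1
        omega
      exact (upper_odd_ev hd7 he.1 he.2 (div_pos hε hQ)).mono (fun n hn _ _ => hn)
    · exact Eventually.of_forall (fun n h h' => absurd ⟨h, h'⟩ he)
  filter_upwards [h1, h2, h3, h3'] with n h4 h5 h6 h9
  have hup : ((k : ℝ) - 1) ^ (d / 2 - 2) * (phihat n d k / n) ≤ 1 + ε := by
    have h7 := mul_le_mul_of_nonneg_left h5 hQ.le
    rw [mul_add, mul_one_div_cancel hQ.ne', mul_div_cancel₀ _ hQ.ne'] at h7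
    exact h7
  refine ⟨?_, hup, fun he => ?_, fun ho => ?_⟩
  · have h7 := rel_odd (k := k) (by linarith) (d / 2 - 2)
    have h8 := scale hQ h4
    linarith
  · have h7 := rel_even (k := k) (by linarith) (r := d / 2) (by omega)
    have h8 := scale hQ (h6 he)
    linarith
  · rcases Nat.lt_or_ge k 4 with hk4 | hk4
    · have hk' : k = 3 := by omega
      have h10 : (((k + 1) / 2 : ℕ) : ℝ) / (k - 2) = 2 := by
        subst hk'
        norm_num
      rw [h10]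
      linarith
    · have h7 := mul_le_mul_of_nonneg_left (h9 ho hk4) hQ.le
      rw [mul_add, mul_div_cancel₀ _ hQ.ne', mul_div_cancel₀ _ hQ.ne'] at h7
      exact h7

end Pool.Agent.FTE
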